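import Mathlib

set_option autoImplicit false

namespace Pool.Agent.Lib.MP_f3a92d_nt

open Real MeasureTheory intervalIntegral

noncomputable section

/-- The test function on `[-1,1]`. -/
def hh (t : ℝ) : ℝ :=
  ((100 + π ^ 2) / π) * sin (π * |t|) + (100 - π ^ 2) * ((1 - |t|) * cos (π * t))

lemma hh_cont : Continuous hh := by
  unfold hh
  fun_prop

lemma hh_even (t : ℝ) : hh (-t) = hh t := by
  unfold hh
  rw [abs_neg, mul_neg, cos_neg]

/-- The kernel. -/
def WW (u : ℝ) : ℝ := ∫ t in (-1 : ℝ)..1, hh t * cos (t * u)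

lemma int_sin (a : ℝ) (ha : a ≠ 0) : ∫ t in (0 : ℝ)..1, sin (a * t) = (1 - cos a) / a := by
  rw [intervalIntegral.integral_comp_mul_left (fun x => sin x) ha]
  simp only [mul_zero, mul_one, integral_sin, cos_zero, smul_eq_mul]
  field_simp

lemma int_cos (a : ℝ) (ha : a ≠ 0) :
    ∫ t in (0 : ℝ)..1, (1 - t) * cos (a * t) = (1 - cos a) / a ^ 2 := by
  have hderiv : ∀ t ∈ Set.uIcc (0 : ℝ) 1,
      HasDerivAt (fun t => (1 - t) * (sin (a * t) / a) - cos (a * t) / a ^ 2)
        ((1 - t) * cos (a * t)) t := by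
    intro t _
    have h1 : HasDerivAt (fun t : ℝ => a * t) a t := by
      simpa using (hasDerivAt_id t).const_mul a
    have h2 : HasDerivAt (fun t : ℝ => sin (a * t)) (cos (a * t) * a) t := h1.sin
    have h3 : HasDerivAt (fun t : ℝ => cos (a * t)) (-sin (a * t) * a) t := h1.cos
    have h4 : HasDerivAt (fun t : ℝ => 1 - t) (-1) t := by
      simpa using (hasDerivAt_id t).const_sub 1
    have h5 := (h4.mul (h2.div_const a)).sub (h3.div_const (a ^ 2))
    have e : (-1) * (sin (a * t) / a) + (1 - t) * (cos (a * t) * a / a) -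
        -sin (a * t) * a / a ^ 2 = (1 - t) * cos (a * t) := by
      field_simp
      ring
    rw [← e]
    exact h5
  rw [intervalIntegral.integral_eq_sub_of_hasDerivAt hderiv]
  · simp
    ring
  · apply Continuous.intervalIntegrable
    fun_prop

lemma WW_half (u : ℝ) : WW u = 2 * ∫ t in (0 : ℝ)..1, hh t * cos (t * u) := by
  unfold WW
  have hint : ∀ a b : ℝ, IntervalIntegrable (fun t => hh t * cos (t * u)) volume a b := by
    intro a b
    apply Continuous.intervalIntegrable
    have := hh_cont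
    fun_prop
  rw [← intervalIntegral.integral_add_adjacent_intervals (hint (-1) 0) (hint 0 1)]
  have : ∫ t in (-1 : ℝ)..0, hh t * cos (t * u) = ∫ t in (0 : ℝ)..1, hh t * cos (t * u) := by
    have h := intervalIntegral.integral_comp_neg (a := 0) (b := 1) (fun t => hh t * cos (t * u))
    rw [neg_zero] at h
    rw [← h]
    apply intervalIntegral.integral_congr
    intro t _
    simp only
    rw [hh_even, neg_mul, cos_neg]
  rw [this]
  ring

lemma WW_closed (u : ℝ) (h1 : π + u ≠ 0) (h2 : π - u ≠ 0) :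
    WW u = 4 * π ^ 2 * (1 + cos u) * (100 - u ^ 2) / (π ^ 2 - u ^ 2) ^ 2 := by
  rw [WW_half]
  have hpi : π ≠ 0 := Real.pi_ne_zero
  have e : ∫ t in (0 : ℝ)..1, hh t * cos (t * u) =
      ∫ t in (0 : ℝ)..1, (((100 + π ^ 2) / π) * ((sin ((π + u) * t) + sin ((π - u) * t)) / 2) +
        (100 - π ^ 2) * (((1 - t) * cos ((π + u) * t) + (1 - t) * cos ((π - u) * t)) / 2)) := by
    apply intervalIntegral.integral_congr
    intro t ht
    rw [Set.uIcc_of_le zero_le_one] at ht
    simp only
    unfold hh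
    rw [abs_of_nonneg ht.1]
    have s1 : sin ((π + u) * t) + sin ((π - u) * t) = 2 * sin (π * t) * cos (t * u) := by
      rw [show (π + u) * t = π * t + t * u by ring, show (π - u) * t = π * t - t * u by ring,
        sin_add, sin_sub]
      ring
    have s2 : cos ((π + u) * t) + cos ((π - u) * t) = 2 * cos (π * t) * cos (t * u) := by
      rw [show (π + u) * t = π * t + t * u by ring, show (π - u) * t = π * t - t * u by ring,
        cos_add, cos_sub]
      ring
    rw [s1, ← mul_add, s2]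
    ring
  rw [e]
  have c1 : ∀ f : ℝ → ℝ, Continuous f → IntervalIntegrable f volume 0 1 :=
    fun f hf => hf.intervalIntegrable _ _
  rw [intervalIntegral.integral_add (c1 _ (by fun_prop)) (c1 _ (by fun_prop)),
    intervalIntegral.integral_const_mul, intervalIntegral.integral_const_mul,
    intervalIntegral.integral_div, intervalIntegral.integral_div,
    intervalIntegral.integral_add (c1 _ (by fun_prop)) (c1 _ (by fun_prop)),
    intervalIntegral.integral_add (c1 _ (by fun_prop)) (c1 _ (by fun_prop)),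
    int_sin _ h1, int_sin _ h2, int_cos _ h1, int_cos _ h2]
  have k1 : cos (π + u) = - cos u := by
    rw [add_comm, cos_add_pi]
  have k2 : cos (π - u) = - cos u := cos_pi_sub u
  rw [k1, k2]
  have h3 : π ^ 2 - u ^ 2 ≠ 0 := by
    have : π ^ 2 - u ^ 2 = (π + u) * (π - u) := by ring
    rw [this]
    exact mul_ne_zero h1 h2
  have h4 : π ^ 2 - u ^ 2 = (π + u) * (π - u) := by ring
  rw [h4]
  field_simp
  ring

lemma pi_sq_lt : π ^ 2 < 10 := by
  have h := Real.pi_lt_d2
  have h0 := Real.pi_pos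
  nlinarith

lemma WW_bound (u : ℝ) : |WW u| ≤ 256 := by
  have hpi := Real.pi_pos
  have hpi3 := Real.pi_gt_three
  have hsq := pi_sq_lt
  have hb : ∀ t ∈ Set.uIoc (-1 : ℝ) 1, ‖hh t * cos (t * u)‖ ≤ 128 := by
    intro t ht
    rw [Set.uIoc_of_le (by norm_num)] at ht
    have ht' : |t| ≤ 1 := abs_le.mpr ⟨ht.1.le, ht.2⟩
    rw [Real.norm_eq_abs, abs_mul]
    have h1 : |cos (t * u)| ≤ 1 := abs_cos_le_one _
    have h2 : |hh t| ≤ 128 := by
      unfold hh
      have a1 : |(100 + π ^ 2) / π * sin (π * |t|)| ≤ 110 / 3 := by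
        rw [abs_mul]
        have b1 : |(100 + π ^ 2) / π| ≤ 110 / 3 := by
          rw [abs_of_nonneg (by positivity)]
          rw [div_le_div_iff₀ hpi (by norm_num)]
          nlinarith
        have b2 := abs_sin_le_one (π * |t|)
        calc |(100 + π ^ 2) / π| * |sin (π * |t|)| ≤ 110 / 3 * 1 := by gcongr
          _ = _ := by ring
      have a2 : |(100 - π ^ 2) * ((1 - |t|) * cos (π * t))| ≤ 91 := by
        rw [abs_mul, abs_mul]
        have b1 : |100 - π ^ 2| ≤ 91 := by
          rw [abs_of_nonneg (by linarith)]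
          nlinarith
        have b2 : abs (1 - abs t) ≤ 1 := by
          rw [abs_of_nonneg (by linarith)]
          have := abs_nonneg t
          linarith
        have b3 := abs_cos_le_one (π * t)
        calc |100 - π ^ 2| * (abs (1 - abs t) * |cos (π * t)|) ≤ 91 * (1 * 1) := by gcongr
          _ = _ := by ring
      calc _ ≤ |(100 + π ^ 2) / π * sin (π * |t|)| +
            |(100 - π ^ 2) * ((1 - |t|) * cos (π * t))| := abs_add_le _ _
        _ ≤ 110 / 3 + 91 := add_le_add a1 a2
        _ ≤ 128 := by norm_num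
    calc |hh t| * |cos (t * u)| ≤ 128 * 1 := by gcongr
      _ = 128 := by ring
  have := intervalIntegral.norm_integral_le_of_norm_le_const hb
  unfold WW
  rw [Real.norm_eq_abs] at this
  refine this.trans (le_of_eq ?_)
  norm_num

lemma WW_nonpos (u : ℝ) (hu : 10 ≤ |u|) : WW u ≤ 0 := by
  have hpi := Real.pi_lt_d2
  have hpi0 := Real.pi_pos
  have hu2 : 100 ≤ u ^ 2 := by
    have : |u| ^ 2 = u ^ 2 := sq_abs u
    nlinarith
  have h1 : π + u ≠ 0 := by
    intro h
    have : u = -π := by linarith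
    rw [this, abs_neg, abs_of_pos hpi0] at hu
    linarith
  have h2 : π - u ≠ 0 := by
    intro h
    have : u = π := by linarith
    rw [this, abs_of_pos hpi0] at hu
    linarith
  rw [WW_closed u h1 h2]
  apply div_nonpos_of_nonpos_of_nonneg
  · have := neg_one_le_cos u
    apply mul_nonpos_of_nonneg_of_nonpos
    · have : 0 ≤ 1 + cos u := by linarith
      positivity
    · linarith
  · positivity

lemma WW_lower_far (u : ℝ) (hu : 10 ≤ |u|) : -100 / u ^ 2 ≤ WW u := by
  have hpi := Real.pi_lt_d2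
  have hpi0 := Real.pi_pos
  have hsq := pi_sq_lt
  have hu2 : 100 ≤ u ^ 2 := by
    have : |u| ^ 2 = u ^ 2 := sq_abs u
    nlinarith
  have h1 : π + u ≠ 0 := by
    intro h
    have : u = -π := by linarith
    rw [this, abs_neg, abs_of_pos hpi0] at hu
    linarith
  have h2 : π - u ≠ 0 := by
    intro h
    have : u = π := by linarith
    rw [this, abs_of_pos hpi0] at hu
    linarith
  rw [WW_closed u h1 h2]
  have hc := cos_le_one u
  have hc' := neg_one_le_cos u
  have hden : 0 < (π ^ 2 - u ^ 2) ^ 2 := by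
    have : π ^ 2 - u ^ 2 < 0 := by linarith
    exact sq_pos_of_neg this
  rw [div_le_div_iff₀ (by positivity) hden]
  -- -100 (π²-u²)² ≤ 4π²(1+cos u)(100-u²) u²
  have h3 : (9 / 10 * u ^ 2) ^ 2 ≤ (π ^ 2 - u ^ 2) ^ 2 := by
    have : 9 / 10 * u ^ 2 ≤ u ^ 2 - π ^ 2 := by linarith
    have h4 : (π ^ 2 - u ^ 2) ^ 2 = (u ^ 2 - π ^ 2) ^ 2 := by ring
    rw [h4]
    gcongr
  have h5 : 4 * π ^ 2 * (1 + cos u) * (u ^ 2 - 100) * u ^ 2 ≤ 4 * 10 * 2 * u ^ 2 * u ^ 2 := by
    have : 0 ≤ 1 + cos u := by linarith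
    have : 0 ≤ u ^ 2 - 100 := by linarith
    gcongr
    · linarith
    · linarith
  nlinarith

lemma WW_nonneg (u : ℝ) (hu : |u| ≤ 10) (h1 : π + u ≠ 0) (h2 : π - u ≠ 0) : 0 ≤ WW u := by
  have hu2 : u ^ 2 ≤ 100 := by
    have : |u| ^ 2 = u ^ 2 := sq_abs u
    have h0 := abs_nonneg u
    nlinarith
  rw [WW_closed u h1 h2]
  apply div_nonneg
  · have := neg_one_le_cos u
    have h3 : 0 ≤ 1 + cos u := by linarith
    have h4 : 0 ≤ 100 - u ^ 2 := by linarith
    positivity
  · positivity

lemma WW_cont : Continuous WW := by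
  unfold WW
  apply intervalIntegral.continuous_parametric_intervalIntegral_of_continuous'
  have := hh_cont
  unfold Function.uncurry
  fun_prop

lemma WW_lower_near (u : ℝ) (hu : |u| ≤ 1) : 59 ≤ WW u := by
  have hpi := Real.pi_gt_three
  have hpi0 := Real.pi_pos
  have hsq := pi_sq_lt
  have hu2 : u ^ 2 ≤ 1 := by
    have : |u| ^ 2 = u ^ 2 := sq_abs u
    have h0 := abs_nonneg u
    nlinarith
  have hu' := abs_le.mp hu
  have h1 : π + u ≠ 0 := by
    intro h
    linarith [hu'.1]
  have h2 : π - u ≠ 0 := by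
    intro h
    linarith [hu'.2]
  rw [WW_closed u h1 h2]
  have hc : 1 / 2 ≤ cos u := by
    have := Real.one_sub_sq_div_two_le_cos (x := u)
    linarith
  have hden : 0 < (π ^ 2 - u ^ 2) ^ 2 := by
    have : 0 < π ^ 2 - u ^ 2 := by nlinarith
    positivity
  rw [le_div_iff₀ hden]
  have h3 : (π ^ 2 - u ^ 2) ^ 2 ≤ (π ^ 2) ^ 2 := by
    have : 0 ≤ π ^ 2 - u ^ 2 := by nlinarith
    gcongr
    nlinarith [sq_nonneg u]
  have h4 : 4 * π ^ 2 * (1 + 1 / 2) * (100 - 1) ≤ 4 * π ^ 2 * (1 + cos u) * (100 - u ^ 2) := by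
    gcongr
  nlinarith

end

end Pool.Agent.Lib.MP_f3a92d_nt
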