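import Mathlib
import Pool.Agent.Lib.MP_f3a92d_nt.Kernel

set_option autoImplicit false

namespace Pool.Agent.Lib.MP_f3a92d_nt

open Real MeasureTheory intervalIntegral ArithmeticFunction.vonMangoldt

noncomputable section

lemma hh_bound (t : ℝ) (ht : |t| ≤ 1) : |hh t| ≤ 128 := by
  have hpi := Real.pi_pos
  have hpi3 := Real.pi_gt_three
  have hsq := pi_sq_lt
  unfold hh
  have a1 : |(100 + π ^ 2) / π * sin (π * |t|)| ≤ 110 / 3 := by
    rw [abs_mul]
    have b1 : |(100 + π ^ 2) / π| ≤ 110 / 3 := by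
      rw [abs_of_nonneg (by positivity)]
      rw [div_le_div_iff₀ hpi (by norm_num)]
      nlinarith
    have b2 := abs_sin_le_one (π * |t|)
    calc |(100 + π ^ 2) / π| * |sin (π * |t|)| ≤ 110 / 3 * 1 := by gcongr
      _ = _ := by ring
  have a2 : |(100 - π ^ 2) * ((1 - |t|) * cos (π * t))| ≤ 91 := by
    rw [abs_mul, abs_mul]
    have b1 : |100 - π ^ 2| ≤ 91 := by
      rw [abs_of_nonneg (by linarith)]
      nlinarith
    have b2 : abs (1 - abs t) ≤ 1 := by
      rw [abs_of_nonneg (by linarith)]
      have := abs_nonneg t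
      linarith
    have b3 := abs_cos_le_one (π * t)
    calc |100 - π ^ 2| * (abs (1 - abs t) * |cos (π * t)|) ≤ 91 * (1 * 1) := by gcongr
      _ = _ := by ring
  calc _ ≤ |(100 + π ^ 2) / π * sin (π * |t|)| +
        |(100 - π ^ 2) * ((1 - |t|) * cos (π * t))| := abs_add_le _ _
    _ ≤ 110 / 3 + 91 := add_le_add a1 a2
    _ ≤ 128 := by norm_num

/-- The weight `n^{-(1+ε)}`. -/
def en (ε : ℝ) (n : ℕ) : ℝ := Real.exp (-(1 + ε) * Real.log n)

lemma en_pos (ε : ℝ) (n : ℕ) : 0 < en ε n := Real.exp_pos _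

variable (q : ℕ)

lemma term_eq (ε t : ℝ) (n : ℕ) :
    LSeries.term (fun n => ((residueClass (1 : ZMod q) n : ℝ) : ℂ))
      ((1 + ε : ℝ) + (t : ℂ) * Complex.I) n =
    ((residueClass (1 : ZMod q) n * en ε n : ℝ) : ℂ) *
      Complex.exp (((-(t * Real.log n) : ℝ) : ℂ) * Complex.I) := by
  rcases eq_or_ne n 0 with rfl | hn
  · rw [LSeries.term_zero, residueClass_apply_zero]
    simp
  · rw [LSeries.term_of_ne_zero hn]
    have hnc : (n : ℂ) ≠ 0 := by exact_mod_cast hn
    rw [Complex.cpow_def_of_ne_zero hnc, ← Complex.natCast_log, div_eq_mul_inv,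
      ← Complex.exp_neg]
    unfold en
    push_cast
    rw [mul_assoc, ← Complex.exp_add]
    congr 2
    ring

lemma norm_term_eq (ε t : ℝ) (n : ℕ) :
    ‖LSeries.term (fun n => ((residueClass (1 : ZMod q) n : ℝ) : ℂ))
      ((1 + ε : ℝ) + (t : ℂ) * Complex.I) n‖ = residueClass (1 : ZMod q) n * en ε n := by
  rw [term_eq, norm_mul, Complex.norm_exp_ofReal_mul_I, mul_one, Complex.norm_real,
    Real.norm_eq_abs, abs_of_nonneg]
  exact mul_nonneg (residueClass_nonneg _ n) (en_pos ε n).le

lemma lsummable (ε t : ℝ) (hε : 0 < ε) :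
    LSeriesSummable (fun n => ((residueClass (1 : ZMod q) n : ℝ) : ℂ))
      ((1 + ε : ℝ) + (t : ℂ) * Complex.I) := by
  apply LSeriesSummable_of_abscissaOfAbsConv_lt_re
  refine (abscissaOfAbsConv_residueClass_le_one (1 : ZMod q)).trans_lt ?_
  simp only [Complex.add_re, Complex.ofReal_re, Complex.mul_re, Complex.I_re, mul_zero,
    Complex.ofReal_im, Complex.I_im, mul_one, sub_self, add_zero]
  exact_mod_cast (by linarith : (1 : ℝ) < 1 + ε)

lemma summable_en (ε : ℝ) (hε : 0 < ε) :
    Summable (fun n => residueClass (1 : ZMod q) n * en ε n) := by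
  have h := (lsummable q ε 0 hε).norm
  refine h.congr (fun n => ?_)
  exact norm_term_eq q ε 0 n

lemma re_term (ε t y : ℝ) (n : ℕ) :
    (Complex.exp (((t * y : ℝ) : ℂ) * Complex.I) *
      LSeries.term (fun n => ((residueClass (1 : ZMod q) n : ℝ) : ℂ))
      ((1 + ε : ℝ) + (t : ℂ) * Complex.I) n).re =
    residueClass (1 : ZMod q) n * en ε n * cos (t * (Real.log n - y)) := by
  rw [term_eq, mul_left_comm, ← Complex.exp_add, ← add_mul, ← Complex.ofReal_add,
    Complex.re_ofReal_mul, Complex.exp_ofReal_mul_I_re]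
  congr 1
  rw [← Real.cos_neg]
  congr 1
  ring

/-- First identity: sum over integers as an integral over the line `re s = 1 + ε`. -/
lemma ident1 (ε y : ℝ) (hε : 0 < ε) :
    HasSum (fun n : ℕ => residueClass (1 : ZMod q) n * en ε n * WW (Real.log n - y))
      (∫ t in (-1 : ℝ)..1, hh t * (Complex.exp (((t * y : ℝ) : ℂ) * Complex.I) *
        LSeries (fun n => ((residueClass (1 : ZMod q) n : ℝ) : ℂ))
          ((1 + ε : ℝ) + (t : ℂ) * Complex.I)).re) := by
  have h := intervalIntegral.hasSum_integral_of_dominated_convergence (μ := volume)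
    (a := (-1 : ℝ)) (b := 1) (ι := ℕ) (E := ℝ)
    (F := fun n t => hh t * (residueClass (1 : ZMod q) n * en ε n *
      cos (t * (Real.log n - y))))
    (f := fun t => hh t * (Complex.exp (((t * y : ℝ) : ℂ) * Complex.I) *
        LSeries (fun n => ((residueClass (1 : ZMod q) n : ℝ) : ℂ))
          ((1 + ε : ℝ) + (t : ℂ) * Complex.I)).re)
    (bound := fun n _ => 128 * (residueClass (1 : ZMod q) n * en ε n))
    (fun n => by
      apply Continuous.aestronglyMeasurable
      have := hh_cont
      fun_prop)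
    (fun n => by
      refine Filter.Eventually.of_forall (fun t ht => ?_)
      rw [Set.uIoc_of_le (by norm_num)] at ht
      have ht' : |t| ≤ 1 := abs_le.mpr ⟨ht.1.le, ht.2⟩
      have h1 := hh_bound t ht'
      have h2 : |cos (t * (Real.log n - y))| ≤ 1 := abs_cos_le_one _
      have h3 : 0 ≤ residueClass (1 : ZMod q) n * en ε n :=
        mul_nonneg (residueClass_nonneg _ n) (en_pos ε n).le
      rw [Real.norm_eq_abs, abs_mul, abs_mul, abs_of_nonneg h3]
      calc |hh t| * (residueClass (1 : ZMod q) n * en ε n * |cos (t * (Real.log n - y))|)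
          ≤ 128 * (residueClass (1 : ZMod q) n * en ε n * 1) := by gcongr
        _ = _ := by ring)
    (by
      refine Filter.Eventually.of_forall (fun t _ => ?_)
      exact (summable_en q ε hε).mul_left 128)
    (by
      apply Continuous.intervalIntegrable
      exact continuous_const)
    (by
      refine Filter.Eventually.of_forall (fun t _ => ?_)
      have hs := (lsummable q ε t hε).hasSum
      have hs2 := (hs.mul_left (Complex.exp (((t * y : ℝ) : ℂ) * Complex.I)))
      have hs3 := Complex.hasSum_re hs2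
      have hs4 := hs3.mul_left (hh t)
      simp only [re_term] at hs4
      exact hs4)
  have e : (fun n : ℕ => residueClass (1 : ZMod q) n * en ε n * WW (Real.log n - y)) =
      fun n : ℕ => ∫ t in (-1 : ℝ)..1, hh t * (residueClass (1 : ZMod q) n * en ε n *
      cos (t * (Real.log n - y))) := by
    funext n
    unfold WW
    rw [← intervalIntegral.integral_const_mul]
    apply intervalIntegral.integral_congr
    intro t _
    simp only
    ring
  rw [e]
  exact h

/-- The pole term as a Laplace integral. -/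
lemma pole_re (ε y t : ℝ) (hε : 0 < ε) :
    (Complex.exp (((t * y : ℝ) : ℂ) * Complex.I) / ((ε : ℂ) + (t : ℂ) * Complex.I)).re =
      ∫ v in Set.Ioi (0 : ℝ), Real.exp (-ε * v) * cos (t * (v - y)) := by
  set a : ℂ := -((ε : ℂ) + (t : ℂ) * Complex.I) with ha
  have hare : a.re < 0 := by
    simp [ha, hε]
  have h := integral_exp_mul_complex_Ioi hare 0
  have hint := integrableOn_exp_mul_complex_Ioi hare 0
  have h2 : Complex.exp (((t * y : ℝ) : ℂ) * Complex.I) / ((ε : ℂ) + (t : ℂ) * Complex.I) =
      ∫ v : ℝ in Set.Ioi (0 : ℝ), Complex.exp (((t * y : ℝ) : ℂ) * Complex.I) *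
        Complex.exp (a * v) := by
    rw [MeasureTheory.integral_const_mul, h]
    simp only [Complex.ofReal_zero, mul_zero, Complex.exp_zero, ha, neg_div_neg_eq]
    ring
  rw [h2]
  have h3 := (Complex.reCLM.integral_comp_comm (hint.const_mul
    (Complex.exp (((t * y : ℝ) : ℂ) * Complex.I))))
  simp only [Complex.reCLM_apply] at h3
  rw [← h3]
  apply MeasureTheory.integral_congr_ae
  refine Filter.Eventually.of_forall (fun v => ?_)
  simp only
  rw [← Complex.exp_add]
  have e : ((t * y : ℝ) : ℂ) * Complex.I + a * v =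
      ((-ε * v : ℝ) : ℂ) + ((-(t * (v - y)) : ℝ) : ℂ) * Complex.I := by
    rw [ha]
    push_cast
    ring
  rw [e, Complex.exp_add, ← Complex.ofReal_exp, Complex.re_ofReal_mul,
    Complex.exp_ofReal_mul_I_re, Real.cos_neg]

/-- Second identity: contribution of the pole. -/
lemma ident2 (ε y : ℝ) (hε : 0 < ε) :
    ∫ t in (-1 : ℝ)..1, hh t *
      (Complex.exp (((t * y : ℝ) : ℂ) * Complex.I) / ((ε : ℂ) + (t : ℂ) * Complex.I)).re =
      ∫ v in Set.Ioi (0 : ℝ), Real.exp (-ε * v) * WW (v - y) := by
  have h1 : ∫ t in (-1 : ℝ)..1, hh t *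
      (Complex.exp (((t * y : ℝ) : ℂ) * Complex.I) / ((ε : ℂ) + (t : ℂ) * Complex.I)).re =
      ∫ t in Set.Ioc (-1 : ℝ) 1, ∫ v in Set.Ioi (0 : ℝ),
        hh t * (Real.exp (-ε * v) * cos (t * (v - y))) := by
    rw [intervalIntegral.integral_of_le (by norm_num)]
    apply MeasureTheory.setIntegral_congr_fun measurableSet_Ioc
    intro t _
    simp only
    rw [pole_re ε y t hε, MeasureTheory.integral_const_mul]
  rw [h1]
  have hint : Integrable (Function.uncurry (fun t v => hh t * (Real.exp (-ε * v) *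
      cos (t * (v - y))))) ((volume.restrict (Set.Ioc (-1 : ℝ) 1)).prod
      (volume.restrict (Set.Ioi (0 : ℝ)))) := by
    have i1 : Integrable (fun _ : ℝ => (128 : ℝ)) (volume.restrict (Set.Ioc (-1 : ℝ) 1)) := by
      apply integrable_const
    have i2 : Integrable (fun v : ℝ => Real.exp (-ε * v)) (volume.restrict (Set.Ioi (0 : ℝ))) :=
      integrableOn_exp_mul_Ioi (by linarith) 0
    have i3 := i1.mul_prod i2
    refine i3.mono' ?_ ?_
    · apply Continuous.aestronglyMeasurable
      have := hh_cont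
      unfold Function.uncurry
      fun_prop
    · rw [MeasureTheory.Measure.prod_restrict]
      refine (ae_restrict_iff' (measurableSet_Ioc.prod measurableSet_Ioi)).mpr ?_
      refine Filter.Eventually.of_forall (fun z hz => ?_)
      obtain ⟨hz1, hz2⟩ := hz
      have ht' : |z.1| ≤ 1 := abs_le.mpr ⟨hz1.1.le, hz1.2⟩
      have b1 := hh_bound z.1 ht'
      have b2 : |cos (z.1 * (z.2 - y))| ≤ 1 := abs_cos_le_one _
      have b3 : 0 ≤ Real.exp (-ε * z.2) := (Real.exp_pos _).le
      simp only [Function.uncurry]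
      rw [Real.norm_eq_abs, abs_mul, abs_mul, abs_of_nonneg b3]
      calc |hh z.1| * (Real.exp (-ε * z.2) * |cos (z.1 * (z.2 - y))|)
          ≤ 128 * (Real.exp (-ε * z.2) * 1) := by gcongr
        _ = _ := by ring
  rw [MeasureTheory.integral_integral_swap hint]
  apply MeasureTheory.integral_congr_ae
  refine Filter.Eventually.of_forall (fun v => ?_)
  simp only
  unfold WW
  rw [intervalIntegral.integral_of_le (by norm_num), ← MeasureTheory.integral_const_mul]
  apply MeasureTheory.integral_congr_ae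
  refine Filter.Eventually.of_forall (fun t => ?_)
  simp only
  ring

end

end Pool.Agent.Lib.MP_f3a92d_nt
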