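import Mathlib
import Pool.Agent.Lib.MP_f3a92d_nt.Ident

set_option autoImplicit false

namespace Pool.Agent.Lib.MP_f3a92d_nt

open Real MeasureTheory intervalIntegral Filter Topology

noncomputable section

lemma integrable_pole (ε y : ℝ) (hε : 0 < ε) :
    IntegrableOn (fun v => Real.exp (-ε * v) * WW (v - y)) (Set.Ioi (0 : ℝ)) := by
  have i2 : IntegrableOn (fun v : ℝ => 256 * Real.exp (-ε * v)) (Set.Ioi (0 : ℝ)) :=
    (integrableOn_exp_mul_Ioi (by linarith) 0).const_mul 256
  refine Integrable.mono' i2 ?_ ?_
  · apply Continuous.aestronglyMeasurable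
    have := WW_cont
    fun_prop
  · refine Filter.Eventually.of_forall (fun v => ?_)
    have b1 := WW_bound (v - y)
    have b3 : 0 ≤ Real.exp (-ε * v) := (Real.exp_pos _).le
    rw [Real.norm_eq_abs, abs_mul, abs_of_nonneg b3]
    calc Real.exp (-ε * v) * |WW (v - y)| ≤ Real.exp (-ε * v) * 256 := by gcongr
      _ = _ := by ring

lemma right_tail (y : ℝ) : IntegrableOn (fun v : ℝ => -100 / (v - y) ^ 2) (Set.Ioi (y + 10)) ∧
    ∫ v in Set.Ioi (y + 10), (-100 / (v - y) ^ 2) = -10 := by
  have hcont : ContinuousWithinAt (fun v : ℝ => 100 / (v - y)) (Set.Ici (y + 10)) (y + 10) := by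
    apply ContinuousAt.continuousWithinAt
    apply ContinuousAt.div continuousAt_const (by fun_prop)
    simp
  have hderiv : ∀ v ∈ Set.Ioi (y + 10), HasDerivAt (fun v : ℝ => 100 / (v - y))
      (-100 / (v - y) ^ 2) v := by
    intro v hv
    have hv' : v - y ≠ 0 := by
      have : y + 10 < v := hv
      linarith
    have h1 : HasDerivAt (fun v : ℝ => v - y) 1 v := by
      simpa using (hasDerivAt_id v).sub_const y
    have h2 := (hasDerivAt_const v (100 : ℝ)).div h1 hv'
    have e : (0 * (v - y) - 100 * 1) / (v - y) ^ 2 = -100 / (v - y) ^ 2 := by ring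
    rw [← e]
    exact h2
  have hlim : Tendsto (fun v : ℝ => 100 / (v - y)) atTop (𝓝 0) := by
    apply Tendsto.div_atTop tendsto_const_nhds
    exact tendsto_atTop_add_const_right atTop (-y) tendsto_id
  have hnonpos : ∀ v ∈ Set.Ioi (y + 10), -100 / (v - y) ^ 2 ≤ 0 := by
    intro v _
    apply div_nonpos_of_nonpos_of_nonneg (by norm_num) (by positivity)
  refine ⟨integrableOn_Ioi_deriv_of_nonpos hcont hderiv hnonpos hlim, ?_⟩
  rw [integral_Ioi_of_hasDerivAt_of_nonpos hcont hderiv hnonpos hlim]
  have : y + 10 - y = 10 := by ring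
  rw [this]
  norm_num

lemma left_tail (y : ℝ) (hy : 11 ≤ y) :
    -10 ≤ ∫ v in (0 : ℝ)..(y - 10), (-100 / (v - y) ^ 2) := by
  have hne : ∀ v ∈ Set.uIcc (0 : ℝ) (y - 10), v - y ≠ 0 := by
    intro v hv
    rw [Set.uIcc_of_le (by linarith)] at hv
    have := hv.2
    linarith
  have hderiv : ∀ v ∈ Set.uIcc (0 : ℝ) (y - 10), HasDerivAt (fun v : ℝ => 100 / (v - y))
      (-100 / (v - y) ^ 2) v := by
    intro v hv
    have h1 : HasDerivAt (fun v : ℝ => v - y) 1 v := by
      simpa using (hasDerivAt_id v).sub_const y
    have h2 := (hasDerivAt_const v (100 : ℝ)).div h1 (hne v hv)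
    have e : (0 * (v - y) - 100 * 1) / (v - y) ^ 2 = -100 / (v - y) ^ 2 := by ring
    rw [← e]
    exact h2
  rw [intervalIntegral.integral_eq_sub_of_hasDerivAt hderiv]
  · have h1 : y - 10 - y = -10 := by ring
    rw [h1, zero_sub]
    have : 100 / -y ≤ 0 := by
      apply div_nonpos_of_nonneg_of_nonpos (by norm_num) (by linarith)
    norm_num
    linarith
  · apply ContinuousOn.intervalIntegrable
    apply ContinuousOn.div continuousOn_const (by fun_prop)
    intro v hv
    exact pow_ne_zero 2 (hne v hv)

lemma pole_lower (ε y : ℝ) (hε : 0 < ε) (hy : 11 ≤ y) :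
    118 * Real.exp (-ε * (y + 1)) - 20 ≤
      ∫ v in Set.Ioi (0 : ℝ), Real.exp (-ε * v) * WW (v - y) := by
  set f : ℝ → ℝ := fun v => Real.exp (-ε * v) * WW (v - y) with hf
  have hfint : IntegrableOn f (Set.Ioi 0) := integrable_pole ε y hε
  have hfc : Continuous f := by
    have := WW_cont
    rw [hf]
    fun_prop
  have hfi : ∀ a b : ℝ, IntervalIntegrable f volume a b := fun a b => hfc.intervalIntegrable a b
  -- splitting
  have hsplit : ∫ v in Set.Ioi (0 : ℝ), f v =
      (∫ v in (0 : ℝ)..(y - 10), f v) + (∫ v in (y - 10)..(y + 10), f v) +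
        ∫ v in Set.Ioi (y + 10), f v := by
    rw [intervalIntegral.integral_add_adjacent_intervals (hfi _ _) (hfi _ _),
      intervalIntegral.integral_of_le (by linarith), ← MeasureTheory.setIntegral_union]
    · congr 1
      rw [Set.Ioc_union_Ioi_eq_Ioi (by linarith)]
    · exact Set.Ioc_disjoint_Ioi le_rfl
    · exact measurableSet_Ioi
    · exact hfint.mono_set Set.Ioc_subset_Ioi_self
    · exact hfint.mono_set (Set.Ioi_subset_Ioi (by linarith))
  -- right tail
  have hR : -10 ≤ ∫ v in Set.Ioi (y + 10), f v := by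
    rw [← (right_tail y).2]
    apply MeasureTheory.setIntegral_mono_on (right_tail y).1
      (hfint.mono_set (Set.Ioi_subset_Ioi (by linarith))) measurableSet_Ioi
    intro v hv
    have hv' : y + 10 < v := hv
    have hu : 10 ≤ |v - y| := by
      rw [abs_of_nonneg (by linarith)]
      linarith
    have h1 := WW_lower_far (v - y) hu
    have h2 := WW_nonpos (v - y) hu
    have h3 : Real.exp (-ε * v) ≤ 1 := by
      apply Real.exp_le_one_iff.mpr
      nlinarith
    have h4 : 0 < Real.exp (-ε * v) := Real.exp_pos _
    rw [hf]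
    simp only
    nlinarith
  -- left tail
  have hL : -10 ≤ ∫ v in (0 : ℝ)..(y - 10), f v := by
    refine (left_tail y hy).trans ?_
    apply intervalIntegral.integral_mono_on (by linarith) _ (hfi _ _)
    · intro v hv
      have hu : 10 ≤ |v - y| := by
        rw [abs_of_nonpos (by linarith [hv.2])]
        linarith [hv.2]
      have h1 := WW_lower_far (v - y) hu
      have h2 := WW_nonpos (v - y) hu
      have h3 : Real.exp (-ε * v) ≤ 1 := by
        apply Real.exp_le_one_iff.mpr
        nlinarith [hv.1]
      have h4 : 0 < Real.exp (-ε * v) := Real.exp_pos _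
      rw [hf]
      simp only
      nlinarith
    · apply ContinuousOn.intervalIntegrable
      apply ContinuousOn.div continuousOn_const (by fun_prop)
      intro v hv
      rw [Set.uIcc_of_le (by linarith)] at hv
      have := hv.2
      apply pow_ne_zero
      linarith
  -- middle part
  have hM : 118 * Real.exp (-ε * (y + 1)) ≤ ∫ v in (y - 10)..(y + 10), f v := by
    have hae : ∀ a b : ℝ, y - 10 ≤ a → a ≤ b → b ≤ y + 10 → 0 ≤ ∫ v in a..b, f v := by
      intro a b ha hab hb
      apply intervalIntegral.integral_nonneg_of_ae_restrict hab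
      have hnull : ∀ᵐ v : ℝ ∂(volume.restrict (Set.Icc a b)), v ≠ y + π ∧ v ≠ y - π := by
        apply MeasureTheory.ae_restrict_of_ae
        have h1 : ∀ᵐ v : ℝ, v ≠ y + π := by
          simp [MeasureTheory.ae_iff]
        have h2 : ∀ᵐ v : ℝ, v ≠ y - π := by
          simp [MeasureTheory.ae_iff]
        filter_upwards [h1, h2] with v a b using ⟨a, b⟩
      filter_upwards [hnull, MeasureTheory.ae_restrict_mem measurableSet_Icc] with v hv hv2
      have hu : |v - y| ≤ 10 := by
        rw [abs_le]
        constructor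
        · linarith [hv2.1]
        · linarith [hv2.2]
      have h1 : π + (v - y) ≠ 0 := by
        intro h
        apply hv.2
        linarith
      have h2 : π - (v - y) ≠ 0 := by
        intro h
        apply hv.1
        linarith
      have := WW_nonneg (v - y) hu h1 h2
      simp only [Pi.zero_apply]
      rw [hf]
      positivity
    have h1 : ∫ v in (y - 10)..(y + 10), f v = (∫ v in (y - 10)..(y - 1), f v) +
        (∫ v in (y - 1)..(y + 1), f v) + ∫ v in (y + 1)..(y + 10), f v := by
      rw [intervalIntegral.integral_add_adjacent_intervals (hfi _ _) (hfi _ _),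
        intervalIntegral.integral_add_adjacent_intervals (hfi _ _) (hfi _ _)]
    rw [h1]
    have h2 := hae (y - 10) (y - 1) le_rfl (by linarith) (by linarith)
    have h3 := hae (y + 1) (y + 10) (by linarith) (by linarith) le_rfl
    have h4 : 118 * Real.exp (-ε * (y + 1)) ≤ ∫ v in (y - 1)..(y + 1), f v := by
      have h5 : ∫ v in (y - 1)..(y + 1), (59 * Real.exp (-ε * (y + 1))) =
          118 * Real.exp (-ε * (y + 1)) := by
        rw [intervalIntegral.integral_const]
        simp only [smul_eq_mul]
        ring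
      rw [← h5]
      apply intervalIntegral.integral_mono_on (by linarith) (by simp) (hfi _ _)
      intro v hv
      have hu : |v - y| ≤ 1 := by
        rw [abs_le]
        constructor
        · linarith [hv.1]
        · linarith [hv.2]
      have h6 := WW_lower_near (v - y) hu
      have h7 : Real.exp (-ε * (y + 1)) ≤ Real.exp (-ε * v) := by
        apply Real.exp_le_exp.mpr
        nlinarith [hv.2]
      have h8 : 0 < Real.exp (-ε * (y + 1)) := Real.exp_pos _
      rw [hf]
      simp only
      nlinarith
    linarith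
  rw [hsplit]
  linarith

end

end Pool.Agent.Lib.MP_f3a92d_nt
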