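import Mathlib
import Pool.Agent.Lib.MP_f3a92d_nt.Pole

set_option autoImplicit false

namespace Pool.Agent.Lib.MP_f3a92d_nt

open Real MeasureTheory intervalIntegral Filter Topology ArithmeticFunction.vonMangoldt

noncomputable section

variable (q : ℕ) [NeZero q]

/-- The auxiliary L-function along a vertical line. -/
def Hf (ε t : ℝ) : ℂ :=
  LFunctionResidueClassAux (1 : ZMod q) ((1 + ε : ℝ) + (t : ℂ) * Complex.I)

/-- The remainder integral. -/
def RR (ε y : ℝ) : ℝ :=
  ∫ t in (-1 : ℝ)..1, hh t * (Complex.exp (((t * y : ℝ) : ℂ) * Complex.I) * Hf q ε t).re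

lemma re_line (ε t : ℝ) : (((1 + ε : ℝ) : ℂ) + (t : ℂ) * Complex.I).re = 1 + ε := by
  simp

lemma im_line (ε t : ℝ) : (((1 + ε : ℝ) : ℂ) + (t : ℂ) * Complex.I).im = t := by
  simp

lemma Hf_cont (ε : ℝ) (hε : 0 ≤ ε) : Continuous (fun t => Hf q ε t) := by
  unfold Hf
  apply (continuousOn_LFunctionResidueClassAux (1 : ZMod q)).comp_continuous
  · fun_prop
  · intro t
    simp only [Set.mem_ofPred_eq]
    rw [re_line]
    linarith

lemma Hf_bound : ∃ B : ℝ, ∀ ε t : ℝ, 0 ≤ ε → ε ≤ 1 → |t| ≤ 1 → ‖Hf q ε t‖ ≤ B := by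
  have hK : IsCompact (Set.Icc (1 : ℝ) 2 ×ℂ Set.Icc (-1 : ℝ) 1) :=
    isCompact_Icc.reProdIm isCompact_Icc
  have hc : ContinuousOn (LFunctionResidueClassAux (1 : ZMod q))
      (Set.Icc (1 : ℝ) 2 ×ℂ Set.Icc (-1 : ℝ) 1) := by
    apply (continuousOn_LFunctionResidueClassAux (1 : ZMod q)).mono
    intro s hs
    rw [Complex.mem_reProdIm] at hs
    exact hs.1.1
  obtain ⟨B, hB⟩ := hK.exists_bound_of_continuousOn hc
  refine ⟨B, fun ε t h1 h2 h3 => hB _ ?_⟩
  rw [Complex.mem_reProdIm, re_line, im_line]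
  exact ⟨⟨by linarith, by linarith⟩, ⟨(abs_le.mp h3).1, (abs_le.mp h3).2⟩⟩

lemma integrand_cont (ε y : ℝ) (hε : 0 ≤ ε) :
    Continuous (fun t => hh t *
      (Complex.exp (((t * y : ℝ) : ℂ) * Complex.I) * Hf q ε t).re) := by
  have h1 := Hf_cont q ε hε
  have h2 := hh_cont
  apply h2.mul
  apply Complex.continuous_re.comp
  apply Continuous.mul _ h1
  fun_prop

lemma ident3 (ε y : ℝ) (hε : 0 < ε) :
    HasSum (fun n : ℕ => residueClass (1 : ZMod q) n * en ε n * WW (Real.log n - y))
      (RR q ε y + (q.totient : ℝ)⁻¹ *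
        ∫ v in Set.Ioi (0 : ℝ), Real.exp (-ε * v) * WW (v - y)) := by
  have h1 := ident1 q ε y hε
  convert h1 using 1
  rw [← ident2 ε y hε, ← intervalIntegral.integral_const_mul]
  unfold RR
  rw [← intervalIntegral.integral_add]
  · apply intervalIntegral.integral_congr
    intro t _
    simp only
    have hL : LSeries (fun n => ((residueClass (1 : ZMod q) n : ℝ) : ℂ))
          ((1 + ε : ℝ) + (t : ℂ) * Complex.I) =
        Hf q ε t + (q.totient : ℂ)⁻¹ / ((ε : ℂ) + (t : ℂ) * Complex.I) := by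
      have h := eqOn_LFunctionResidueClassAux (a := (1 : ZMod q)) isUnit_one
        (x := ((1 + ε : ℝ) : ℂ) + (t : ℂ) * Complex.I) (by
          simp only [Set.mem_ofPred_eq]
          rw [re_line]
          linarith)
      unfold Hf
      rw [h]
      have e : ((1 + ε : ℝ) : ℂ) + (t : ℂ) * Complex.I - 1 = (ε : ℂ) + (t : ℂ) * Complex.I := by
        push_cast
        ring
      simp only [e]
      ring
    rw [hL, mul_add, Complex.add_re]
    have e2 : (Complex.exp (((t * y : ℝ) : ℂ) * Complex.I) *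
        ((q.totient : ℂ)⁻¹ / ((ε : ℂ) + (t : ℂ) * Complex.I))) =
        (((q.totient : ℝ)⁻¹ : ℝ) : ℂ) * (Complex.exp (((t * y : ℝ) : ℂ) * Complex.I) /
          ((ε : ℂ) + (t : ℂ) * Complex.I)) := by
      push_cast
      ring
    rw [e2, Complex.re_ofReal_mul]
    ring
  · exact (integrand_cont q ε y hε.le).intervalIntegrable _ _
  · apply Continuous.intervalIntegrable
    apply Continuous.mul continuous_const
    apply hh_cont.mul
    apply Complex.continuous_re.comp
    apply Continuous.div (by fun_prop) (by fun_prop)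
    intro t h
    have := congrArg Complex.re h
    simp at this
    linarith

lemma RR_tendsto (y : ℝ) : Tendsto (fun ε => RR q ε y) (𝓝[>] 0) (𝓝 (RR q 0 y)) := by
  obtain ⟨B, hB⟩ := Hf_bound q
  unfold RR
  apply intervalIntegral.tendsto_integral_filter_of_dominated_convergence (fun _ => 128 * B)
  · filter_upwards [self_mem_nhdsWithin] with ε hε
    exact (integrand_cont q ε y (le_of_lt hε)).aestronglyMeasurable
  · have h1 : ∀ᶠ ε : ℝ in 𝓝[>] 0, ε ≤ 1 := by
      apply eventually_nhdsWithin_of_eventually_nhds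
      exact (eventually_lt_nhds (zero_lt_one)).mono (fun _ h => le_of_lt h)
    filter_upwards [self_mem_nhdsWithin, h1] with ε hε hε1
    refine Filter.Eventually.of_forall (fun t ht => ?_)
    rw [Set.uIoc_of_le (by norm_num)] at ht
    have ht' : |t| ≤ 1 := abs_le.mpr ⟨ht.1.le, ht.2⟩
    have b1 := hh_bound t ht'
    have b2 := hB ε t (le_of_lt hε) hε1 ht'
    rw [Real.norm_eq_abs, abs_mul]
    have b3 : |(Complex.exp (((t * y : ℝ) : ℂ) * Complex.I) * Hf q ε t).re| ≤ B := by
      refine (Complex.abs_re_le_norm _).trans ?_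
      rw [norm_mul, Complex.norm_exp_ofReal_mul_I, one_mul]
      exact b2
    have b0 : 0 ≤ |(Complex.exp (((t * y : ℝ) : ℂ) * Complex.I) * Hf q ε t).re| := abs_nonneg _
    calc |hh t| * |(Complex.exp (((t * y : ℝ) : ℂ) * Complex.I) * Hf q ε t).re| ≤ 128 * B := by
          gcongr
      _ = _ := rfl
  · simp
  · refine Filter.Eventually.of_forall (fun t _ => ?_)
    apply Tendsto.const_mul
    apply (Complex.continuous_re.tendsto _).comp
    apply Tendsto.const_mul
    unfold Hf
    have hc := (continuousOn_LFunctionResidueClassAux (1 : ZMod q))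
      (((1 + 0 : ℝ) : ℂ) + (t : ℂ) * Complex.I) (by
        simp only [Set.mem_ofPred_eq]
        rw [re_line]
        linarith)
    apply hc.tendsto.comp
    apply tendsto_nhdsWithin_iff.mpr
    constructor
    · apply Tendsto.mono_left _ nhdsWithin_le_nhds
      have : Continuous (fun ε : ℝ => ((1 + ε : ℝ) : ℂ) + (t : ℂ) * Complex.I) := by fun_prop
      exact this.tendsto 0
    · filter_upwards [self_mem_nhdsWithin] with ε hε
      have h0 : (0 : ℝ) < ε := hε
      show 1 ≤ (((1 + ε : ℝ) : ℂ) + (t : ℂ) * Complex.I).re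
      rw [re_line]
      linarith

lemma RR_zero_tendsto : Tendsto (fun y => RR q 0 y) atTop (𝓝 0) := by
  set G : ℝ → ℂ := Set.indicator (Set.Ioc (-1 : ℝ) 1) (fun t => (hh t : ℂ) * Hf q 0 t) with hG
  have h := Real.tendsto_integral_exp_smul_cocompact G
  have hlim : Tendsto (fun y : ℝ => -y / (2 * π)) atTop (cocompact ℝ) := by
    have h1 : Tendsto (fun y : ℝ => -y / (2 * π)) atTop atBot := by
      apply Tendsto.atBot_div_const (by positivity)
      exact tendsto_neg_atTop_atBot
    exact h1.mono_right (by rw [cocompact_eq_atBot_atTop]; exact le_sup_left)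
  have h2 := (Complex.continuous_re.tendsto 0).comp (h.comp hlim)
  simp only [Complex.zero_re] at h2
  refine h2.congr (fun y => ?_)
  simp only [Function.comp]
  unfold RR
  rw [intervalIntegral.integral_of_le (by norm_num)]
  have hint : IntegrableOn (fun t : ℝ => Complex.exp (((t * y : ℝ) : ℂ) * Complex.I) *
      ((hh t : ℂ) * Hf q 0 t)) (Set.Ioc (-1 : ℝ) 1) := by
    have hc : Continuous (fun t : ℝ => Complex.exp (((t * y : ℝ) : ℂ) * Complex.I) *
      ((hh t : ℂ) * Hf q 0 t)) := by
      have h1 := Hf_cont q 0 le_rfl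
      have h2 := hh_cont
      apply Continuous.mul (by fun_prop)
      apply Continuous.mul _ h1
      fun_prop
    exact (hc.integrableOn_Icc (a := -1) (b := 1)).mono_set Set.Ioc_subset_Icc_self
  have e1 : ∫ v : ℝ, Real.fourierChar (-(v * (-y / (2 * π)))) • G v =
      ∫ t in Set.Ioc (-1 : ℝ) 1, Complex.exp (((t * y : ℝ) : ℂ) * Complex.I) *
      ((hh t : ℂ) * Hf q 0 t) := by
    rw [← MeasureTheory.integral_indicator measurableSet_Ioc]
    apply MeasureTheory.integral_congr_ae
    refine Filter.Eventually.of_forall (fun v => ?_)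
    simp only [hG, Set.indicator_apply]
    split_ifs
    · rw [Circle.smul_def, Real.fourierChar_apply, smul_eq_mul]
      congr 2
      push_cast
      have : (π : ℂ) ≠ 0 := by exact_mod_cast Real.pi_ne_zero
      field_simp
    · simp
  rw [e1]
  have h3 := Complex.reCLM.integral_comp_comm hint
  simp only [Complex.reCLM_apply] at h3
  rw [← h3]
  apply MeasureTheory.setIntegral_congr_fun measurableSet_Ioc
  intro t _
  simp only
  rw [← Complex.re_ofReal_mul]
  congr 1
  ring

end

end Pool.Agent.Lib.MP_f3a92d_nt
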