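import Mathlib
import Pool.Agent.Lib.MP_f3a92d_nt.Block

set_option autoImplicit false

namespace Pool.Agent.Lib.MP_f3a92d_nt

open Real MeasureTheory Filter Topology ArithmeticFunction.vonMangoldt

noncomputable section

variable (q : ℕ) [NeZero q]

/-- The integers `n` with `|log n - y| ≤ 10`. -/
def blk (y : ℝ) : Finset ℕ := Finset.Icc ⌈Real.exp (y - 10)⌉₊ ⌊Real.exp (y + 10)⌋₊

lemma mem_blk (y : ℝ) (n : ℕ) : n ∈ blk y ↔ 0 < n ∧ |Real.log n - y| ≤ 10 := by
  unfold blk
  rw [Finset.mem_Icc, Nat.ceil_le, Nat.le_floor_iff (Real.exp_pos _).le, abs_le]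
  constructor
  · rintro ⟨h1, h2⟩
    have hn : (0 : ℝ) < n := (Real.exp_pos _).trans_le h1
    refine ⟨by exact_mod_cast hn, ?_, ?_⟩
    · have := (Real.le_log_iff_exp_le hn).mpr h1
      linarith
    · have := (Real.log_le_iff_le_exp hn).mpr h2
      linarith
  · rintro ⟨h0, h1, h2⟩
    have hn : (0 : ℝ) < n := by exact_mod_cast h0
    exact ⟨(Real.le_log_iff_exp_le hn).mp (by linarith), (Real.log_le_iff_le_exp hn).mp (by linarith)⟩

lemma block_lower : ∃ y0 : ℝ, ∀ y ≥ y0,
    97 * (q.totient : ℝ)⁻¹ ≤ 256 * ∑ n ∈ blk y, residueClass (1 : ZMod q) n / n := by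
  set A : ℝ := (q.totient : ℝ)⁻¹ with hA
  have hA0 : 0 < A := by
    rw [hA]
    have := Nat.totient_pos.mpr (Nat.pos_of_ne_zero (NeZero.ne q))
    positivity
  have h1 : ∀ᶠ y in atTop, -A < RR q 0 y :=
    (RR_zero_tendsto q).eventually (lt_mem_nhds (by linarith))
  obtain ⟨y0, hy0⟩ := Filter.eventually_atTop.mp h1
  refine ⟨max y0 11, fun y hy => ?_⟩
  have hy1 := hy0 y ((le_max_left _ _).trans hy)
  have hy2 : 11 ≤ y := (le_max_right _ _).trans hy
  have hlim : Tendsto (fun ε => RR q ε y + A * (118 * Real.exp (-ε * (y + 1)) - 20)) (𝓝[>] 0)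
      (𝓝 (RR q 0 y + A * (118 * Real.exp (-0 * (y + 1)) - 20))) := by
    apply (RR_tendsto q y).add
    apply Tendsto.const_mul
    apply Tendsto.mono_left _ nhdsWithin_le_nhds
    have : Continuous (fun ε : ℝ => 118 * Real.exp (-ε * (y + 1)) - 20) := by fun_prop
    exact this.tendsto 0
  have hle : RR q 0 y + A * (118 * Real.exp (-0 * (y + 1)) - 20) ≤
      256 * ∑ n ∈ blk y, residueClass (1 : ZMod q) n / n := by
    apply le_of_tendsto hlim
    filter_upwards [self_mem_nhdsWithin] with ε hε
    have hε' : (0 : ℝ) < ε := hε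
    have hs := ident3 q ε y hε'
    have hp := pole_lower ε y hε' hy2
    have hs2 := hs.neg
    have hs3 := sum_le_hasSum (blk y) (f := fun n : ℕ =>
      -(residueClass (1 : ZMod q) n * en ε n * WW (Real.log n - y))) ?_ hs2
    · rw [Finset.sum_neg_distrib] at hs3
      have hs4 : RR q ε y + A * (118 * Real.exp (-ε * (y + 1)) - 20) ≤
          ∑ n ∈ blk y, residueClass (1 : ZMod q) n * en ε n * WW (Real.log n - y) := by
        have : A * (118 * Real.exp (-ε * (y + 1)) - 20) ≤
            A * ∫ v in Set.Ioi (0 : ℝ), Real.exp (-ε * v) * WW (v - y) := by gcongr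
        linarith
      refine hs4.trans ?_
      rw [Finset.mul_sum]
      apply Finset.sum_le_sum
      intro n hn
      rw [mem_blk] at hn
      have hn0 : (0 : ℝ) < n := by exact_mod_cast hn.1
      have hW := (abs_le.mp (WW_bound (Real.log n - y))).2
      have ha := residueClass_nonneg (1 : ZMod q) n
      have hen : en ε n ≤ 1 / n := by
        unfold en
        have h1 : 0 ≤ Real.log n := Real.log_natCast_nonneg n
        calc Real.exp (-(1 + ε) * Real.log n) ≤ Real.exp (-Real.log n) := by
              apply Real.exp_le_exp.mpr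
              nlinarith
          _ = 1 / n := by
              rw [Real.exp_neg, Real.exp_log hn0, one_div]
      have hen0 := en_pos ε n
      calc residueClass (1 : ZMod q) n * en ε n * WW (Real.log n - y)
          ≤ residueClass (1 : ZMod q) n * en ε n * 256 := by gcongr
        _ ≤ residueClass (1 : ZMod q) n * (1 / n) * 256 := by gcongr
        _ = _ := by ring
    · intro n hn
      rw [mem_blk] at hn
      rcases Nat.eq_zero_or_pos n with rfl | hn0
      · rw [residueClass_apply_zero]
        simp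
      · have hfar : 10 ≤ |Real.log n - y| := by
          by_contra! h
          exact hn ⟨hn0, h.le⟩
        have h1 := WW_nonpos _ hfar
        have h2 := residueClass_nonneg (1 : ZMod q) n
        have h3 := (en_pos ε n).le
        have h4 : 0 ≤ residueClass (1 : ZMod q) n * en ε n := mul_nonneg h2 h3
        nlinarith
  have : Real.exp (-0 * (y + 1)) = 1 := by simp
  rw [this] at hle
  linarith

/-- The same for primes. -/
lemma prime_block : ∃ y0 : ℝ, ∀ y ≥ y0,
    96 * (q.totient : ℝ)⁻¹ ≤
      256 * ∑ n ∈ (blk y).filter (fun n : ℕ => n.Prime ∧ (n : ZMod q) = 1), Real.log n / n := by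
  obtain ⟨y1, hy1⟩ := block_lower q
  set A : ℝ := (q.totient : ℝ)⁻¹ with hA
  have hA0 : 0 < A := by
    rw [hA]
    have := Nat.totient_pos.mpr (Nat.pos_of_ne_zero (NeZero.ne q))
    positivity
  have hsum := summable_residueClass_non_primes_div (1 : ZMod q)
  have hnn : ∀ n : ℕ, 0 ≤ (if n.Prime then 0 else residueClass (1 : ZMod q) n) / n := by
    intro n
    split_ifs
    · simp
    · exact div_nonneg (residueClass_nonneg _ n) (by positivity)
  -- tail of the non-prime sum
  have htail := (summable_iff_vanishing_norm.mp hsum) (A / 256) (by positivity)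
  obtain ⟨s, hs⟩ := htail
  obtain ⟨m, hm⟩ : ∃ m : ℕ, ∀ n ∈ s, n < m := ⟨s.sup id + 1, fun n hn =>
    Nat.lt_succ_of_le (Finset.le_sup (f := id) hn)⟩
  refine ⟨max y1 (Real.log (m + 1) + 10), fun y hy => ?_⟩
  have h1 := hy1 y ((le_max_left _ _).trans hy)
  have hy2 : Real.log (m + 1) + 10 ≤ y := (le_max_right _ _).trans hy
  have hdisj : Disjoint (blk y) s := by
    rw [Finset.disjoint_left]
    intro n hn hns
    have hlt := hm n hns
    rw [mem_blk] at hn
    have hn0 : (0 : ℝ) < n := by exact_mod_cast hn.1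
    have h2 : Real.log n < Real.log (m + 1) := by
      apply Real.log_lt_log hn0
      have : (n : ℝ) < m := by exact_mod_cast hlt
      linarith
    have h3 := (abs_le.mp hn.2).1
    linarith
  have h2 := hs (blk y) hdisj
  rw [Real.norm_eq_abs, abs_of_nonneg (Finset.sum_nonneg (fun n _ => hnn n))] at h2
  have h3 : ∑ n ∈ blk y, residueClass (1 : ZMod q) n / n =
      ∑ n ∈ blk y, (if n.Prime then 0 else residueClass (1 : ZMod q) n) / n +
      ∑ n ∈ (blk y).filter (fun n : ℕ => n.Prime ∧ (n : ZMod q) = 1), Real.log n / n := by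
    rw [Finset.sum_filter, ← Finset.sum_add_distrib]
    apply Finset.sum_congr rfl
    intro n _
    by_cases hp : n.Prime
    · by_cases hc : (n : ZMod q) = 1
      · simp [hp, hc, residueClass, Set.indicator, ArithmeticFunction.vonMangoldt_apply_prime hp]
      · simp [hp, hc, residueClass, Set.indicator]
    · simp [hp]
  rw [h3] at h1
  linarith

/-- Weak prime number theorem in the progression `1 mod q`, with an absolute constant. -/
theorem primes_one_mod : ∃ x0 : ℝ, ∀ x : ℝ, x0 ≤ x →
    (3 / 8) * Real.exp (-20) * (q.totient : ℝ)⁻¹ * (x / Real.log x) ≤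
      (((Finset.Icc 1 ⌊x⌋₊).filter (fun n : ℕ => n.Prime ∧ (n : ZMod q) = 1)).card : ℝ) := by
  obtain ⟨y0, hy0⟩ := prime_block q
  refine ⟨max (Real.exp (y0 + 10)) 2, fun x hx => ?_⟩
  have hx1 : Real.exp (y0 + 10) ≤ x := (le_max_left _ _).trans hx
  have hx2 : 2 ≤ x := (le_max_right _ _).trans hx
  have hx0 : 0 < x := by linarith
  have hlogx : 0 < Real.log x := Real.log_pos (by linarith)
  set y := Real.log x - 10 with hy
  have hyy : y0 ≤ y := by
    have := (Real.le_log_iff_exp_le hx0).mpr hx1
    linarith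
  have h1 := hy0 y hyy
  set S := (blk y).filter (fun n : ℕ => n.Prime ∧ (n : ZMod q) = 1) with hS
  have hterm : ∀ n ∈ S, Real.log n / n ≤ Real.log x * (Real.exp 20 / x) := by
    intro n hn
    rw [hS, Finset.mem_filter, mem_blk] at hn
    have hn0 : (0 : ℝ) < n := by exact_mod_cast hn.1.1
    have h2 := abs_le.mp hn.1.2
    have h3 : Real.log n ≤ Real.log x := by
      have := h2.2
      rw [hy] at this
      linarith
    have h4 : x * Real.exp (-20) ≤ n := by
      have : Real.log x - 20 ≤ Real.log n := by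
        have := h2.1
        rw [hy] at this
        linarith
      have h5 := (Real.le_log_iff_exp_le hn0).mp this
      rw [sub_eq_add_neg, Real.exp_add, Real.exp_log hx0] at h5
      exact h5
    have h5 : (0 : ℝ) < x * Real.exp (-20) := by positivity
    calc Real.log n / n ≤ Real.log x / n := by gcongr
      _ ≤ Real.log x / (x * Real.exp (-20)) := by gcongr
      _ = _ := by
        rw [Real.exp_neg]
        field_simp
  have hsum : ∑ n ∈ S, Real.log n / n ≤ S.card * (Real.log x * (Real.exp 20 / x)) := by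
    have := Finset.sum_le_card_nsmul S _ _ hterm
    rwa [nsmul_eq_mul] at this
  have hcard : (S.card : ℝ) ≤
      (((Finset.Icc 1 ⌊x⌋₊).filter (fun n : ℕ => n.Prime ∧ (n : ZMod q) = 1)).card : ℝ) := by
    have : S.card ≤ ((Finset.Icc 1 ⌊x⌋₊).filter (fun n : ℕ => n.Prime ∧ (n : ZMod q) = 1)).card := by
      apply Finset.card_le_card
      intro n hn
      rw [hS, Finset.mem_filter, mem_blk] at hn
      rw [Finset.mem_filter, Finset.mem_Icc, Nat.le_floor_iff hx0.le]
      have hn0 : (0 : ℝ) < n := by exact_mod_cast hn.1.1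
      refine ⟨⟨hn.1.1, ?_⟩, hn.2⟩
      have h2 := abs_le.mp hn.1.2
      have h3 : Real.log n ≤ Real.log x := by
        have := h2.2
        rw [hy] at this
        linarith
      exact (Real.log_le_log_iff hn0 hx0).mp h3
    exact_mod_cast this
  refine le_trans ?_ hcard
  have h2 : 96 * (q.totient : ℝ)⁻¹ ≤ 256 * (S.card * (Real.log x * (Real.exp 20 / x))) := by
    refine h1.trans ?_
    gcongr
  have h3 : Real.exp (-20) * Real.exp 20 = 1 := by
    rw [← Real.exp_add]
    simp
  calc (3 / 8) * Real.exp (-20) * (q.totient : ℝ)⁻¹ * (x / Real.log x)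
      = (96 * (q.totient : ℝ)⁻¹) / 256 * (Real.exp (-20) * (x / Real.log x)) := by ring
    _ ≤ (256 * (S.card * (Real.log x * (Real.exp 20 / x)))) / 256 *
        (Real.exp (-20) * (x / Real.log x)) := by gcongr
    _ = S.card * (Real.exp (-20) * Real.exp 20) := by
        field_simp
    _ = S.card := by rw [h3, mul_one]

end

end Pool.Agent.Lib.MP_f3a92d_nt
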