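import Mathlib

set_option autoImplicit false

namespace Pool.Agent.Lib.MP_f3a92d_nt

open Finset ArithmeticFunction BoundingSieve
open scoped ArithmeticFunction.Moebius

noncomputable section

/-- The arithmetic function `n ↦ 1/n`. -/
def nuInv : ArithmeticFunction ℝ := ⟨fun n => (n : ℝ)⁻¹, by simp⟩

lemma nuInv_apply (n : ℕ) : nuInv n = (n : ℝ)⁻¹ := rfl

lemma nuInv_mult : nuInv.IsMultiplicative := by
  refine ⟨by simp [nuInv_apply], fun {m n} _ => by simp [nuInv_apply, mul_comm]⟩

/-- The sieve of the interval `[C, C+N)` by the primes dividing `P`. -/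
def sv (P C N : ℕ) (hP : Squarefree P) : BoundingSieve where
  support := Ico C (C + N)
  prodPrimes := P
  prodPrimes_squarefree := hP
  weights := fun _ => 1
  weights_nonneg := by intro; norm_num
  totalMass := N
  nu := nuInv
  nu_mult := nuInv_mult
  nu_pos_of_prime := by
    intro p hp _
    rw [nuInv_apply]
    have := hp.pos
    positivity
  nu_lt_one_of_prime := by
    intro p hp _
    rw [nuInv_apply]
    exact inv_lt_one_of_one_lt₀ (by exact_mod_cast hp.one_lt)

lemma card_dvd_bound (C N d : ℕ) (hd : 0 < d) :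
    |((((Ico C (C + N)).filter (fun n => d ∣ n)).card : ℝ) - (d : ℝ)⁻¹ * N)| ≤ 1 := by
  have h := Nat.Ico_filter_modEq_card C (C + N) hd 0
  have h2 : (Ico C (C + N)).filter (fun n => d ∣ n) =
      (Ico C (C + N)).filter (fun x => x ≡ 0 [MOD d]) := by
    ext x
    simp [Nat.modEq_zero_iff_dvd]
  rw [h2]
  have hdq : (0 : ℚ) < d := by exact_mod_cast hd
  have hle : ((C : ℚ) - (0 : ℕ)) / d ≤ (((C + N : ℕ) : ℚ) - (0 : ℕ)) / d := by
    gcongr
    simp
  have hmax : max (⌈(((C + N : ℕ) : ℚ) - (0 : ℕ)) / (d : ℚ)⌉ - ⌈((C : ℚ) - (0 : ℕ)) / (d : ℚ)⌉) 0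
      = ⌈(((C + N : ℕ) : ℚ) - (0 : ℕ)) / (d : ℚ)⌉ - ⌈((C : ℚ) - (0 : ℕ)) / (d : ℚ)⌉ := by
    apply max_eq_left
    have := Int.ceil_mono hle
    omega
  rw [hmax] at h
  set a := ⌈(((C + N : ℕ) : ℚ) - (0 : ℕ)) / (d : ℚ)⌉ with ha
  set b := ⌈((C : ℚ) - (0 : ℕ)) / (d : ℚ)⌉ with hb
  have ha1 := Int.le_ceil ((((C + N : ℕ) : ℚ) - (0 : ℕ)) / (d : ℚ))
  have ha2 := Int.ceil_lt_add_one ((((C + N : ℕ) : ℚ) - (0 : ℕ)) / (d : ℚ))
  have hb1 := Int.le_ceil (((C : ℚ) - (0 : ℕ)) / (d : ℚ))
  have hb2 := Int.ceil_lt_add_one (((C : ℚ) - (0 : ℕ)) / (d : ℚ))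
  rw [← ha] at ha1 ha2
  rw [← hb] at hb1 hb2
  have hcard : (((Ico C (C + N)).filter (fun x => x ≡ 0 [MOD d])).card : ℚ) = (a : ℚ) - b := by
    have := congrArg (fun z : ℤ => (z : ℚ)) h
    push_cast at this
    exact this
  have key : |((((Ico C (C + N)).filter (fun x => x ≡ 0 [MOD d])).card : ℚ) - (d : ℚ)⁻¹ * N)| ≤ 1 := by
    rw [hcard, abs_le]
    have e1 : (((C + N : ℕ) : ℚ) - (0 : ℕ)) / (d : ℚ) = (C : ℚ) / d + (d : ℚ)⁻¹ * N := by
      push_cast
      field_simp
      ring
    have e2 : ((C : ℚ) - (0 : ℕ)) / (d : ℚ) = (C : ℚ) / d := by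
      push_cast
      ring
    rw [e1] at ha1 ha2
    rw [e2] at hb1 hb2
    constructor <;> linarith
  have := (Rat.cast_le (K := ℝ)).mpr key
  push_cast at this
  exact this

lemma rem_bound (P C N : ℕ) (hP : Squarefree P) (d : ℕ) (hd : 0 < d) :
    |(sv P C N hP).rem d| ≤ 1 := by
  have h := card_dvd_bound C N d hd
  have e : (sv P C N hP).rem d =
      ((((Ico C (C + N)).filter (fun n => d ∣ n)).card : ℝ) - (d : ℝ)⁻¹ * N) := by
    simp only [BoundingSieve.rem, BoundingSieve.multSum]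
    congr 1
    · simp only [sv]
      rw [Finset.sum_ite]
      simp
  rw [e]
  exact h

lemma siftedSum_eq (P C N : ℕ) (hP : Squarefree P) :
    (sv P C N hP).siftedSum =
      (((Ico C (C + N)).filter (fun n => Nat.Coprime P n)).card : ℝ) := by
  have h : (sv P C N hP).siftedSum =
      ∑ d ∈ Ico C (C + N), if Nat.Coprime P d then (1 : ℝ) else 0 := rfl
  rw [h, Finset.sum_ite]
  simp

lemma moebius_sum_between (P l m : ℕ) (hP : Squarefree P) (hl : l ∣ P) (hm : m ∣ P) :
    ∑ d ∈ P.divisors, (if l ∣ d ∧ d ∣ m then (μ d : ℝ) else 0) =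
      if l = m then (μ m : ℝ) else 0 := by
  have hP0 : P ≠ 0 := hP.ne_zero
  have hm0 : m ≠ 0 := ne_zero_of_dvd_ne_zero hP0 hm
  have hl0 : l ≠ 0 := ne_zero_of_dvd_ne_zero hP0 hl
  by_cases hlm : l ∣ m
  · obtain ⟨e, rfl⟩ := hlm
    have hsq : Squarefree (l * e) := hP.squarefree_of_dvd hm
    have he0 : e ≠ 0 := by rintro rfl; simp at hm0
    have h1 : ∑ d ∈ P.divisors, (if l ∣ d ∧ d ∣ l * e then (μ d : ℝ) else 0) =
        ∑ f ∈ e.divisors, (μ (l * f) : ℝ) := by
      rw [← Finset.sum_filter]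
      symm
      refine Finset.sum_bij (fun f _ => l * f) ?_ ?_ ?_ ?_
      · intro f hf
        simp only [Nat.mem_divisors] at hf
        simp only [Finset.mem_filter, Nat.mem_divisors]
        have : l * f ∣ l * e := Nat.mul_dvd_mul_left l hf.1
        exact ⟨⟨this.trans hm, hP0⟩, ⟨Dvd.intro f rfl, this⟩⟩
      · intro a _ b _ hab
        exact Nat.eq_of_mul_eq_mul_left (Nat.pos_of_ne_zero hl0) hab
      · intro d hd
        simp only [Finset.mem_filter, Nat.mem_divisors] at hd
        obtain ⟨⟨_, _⟩, ⟨f, rfl⟩, hfe⟩ := hd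
        refine ⟨f, ?_, rfl⟩
        simp only [Nat.mem_divisors]
        exact ⟨Nat.dvd_of_mul_dvd_mul_left (Nat.pos_of_ne_zero hl0) hfe, he0⟩
      · intro f _
        rfl
    rw [h1]
    have hcop : Nat.Coprime l e := (Nat.squarefree_mul_iff.mp hsq).1
    have h2 : ∑ f ∈ e.divisors, (μ (l * f) : ℝ) = (μ l : ℝ) * ∑ f ∈ e.divisors, (μ f : ℝ) := by
      rw [Finset.mul_sum]
      refine Finset.sum_congr rfl (fun f hf => ?_)
      simp only [Nat.mem_divisors] at hf
      have : Nat.Coprime l f := Nat.Coprime.coprime_dvd_right hf.1 hcop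
      rw [isMultiplicative_moebius.map_mul_of_coprime this]
      push_cast
      ring
    rw [h2]
    have h3 : ∑ f ∈ e.divisors, (μ f : ℝ) = if e = 1 then 1 else 0 := by
      have := congrArg (fun F : ArithmeticFunction ℤ => F e) moebius_mul_coe_zeta
      rw [ArithmeticFunction.coe_mul_zeta_apply, ArithmeticFunction.one_apply] at this
      rw [← Int.cast_sum, this]
      split_ifs <;> simp
    rw [h3]
    by_cases he1 : e = 1
    · subst he1
      simp
    · have : l ≠ l * e := by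
        intro h
        apply he1
        have : l * 1 = l * e := by rw [mul_one]; exact h
        exact (Nat.eq_of_mul_eq_mul_left (Nat.pos_of_ne_zero hl0) this).symm
      simp [he1, this]
  · have hne : l ≠ m := by rintro rfl; exact hlm dvd_rfl
    rw [if_neg hne]
    apply Finset.sum_eq_zero
    intro d _
    rw [if_neg]
    rintro ⟨h1, h2⟩
    exact hlm (h1.trans h2)

/-- The normalising sum `L = ∑_{m ∣ P, m ≤ z} g(m)`. -/
def bigL (P C N : ℕ) (hP : Squarefree P) (z : ℕ) : ℝ :=
  ∑ m ∈ P.divisors, if m ≤ z then (sv P C N hP).selbergTerms m else 0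

/-- The Selberg weights. -/
def selW (P C N : ℕ) (hP : Squarefree P) (z : ℕ) (d : ℕ) : ℝ :=
  (μ d : ℝ) * d * ((∑ m ∈ P.divisors, if d ∣ m ∧ m ≤ z then (sv P C N hP).selbergTerms m else 0) /
    bigL P C N hP z)

lemma selbergTerms_pos' (P C N : ℕ) (hP : Squarefree P) (m : ℕ) (hm : m ∈ P.divisors) :
    0 < (sv P C N hP).selbergTerms m :=
  selbergTerms_pos (Nat.dvd_of_mem_divisors hm)

lemma bigL_pos (P C N : ℕ) (hP : Squarefree P) (z : ℕ) (hz : 1 ≤ z) :
    0 < bigL P C N hP z := by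
  unfold bigL
  have h1 : (1 : ℕ) ∈ P.divisors := by
    simp [hP.ne_zero]
  refine Finset.sum_pos' ?_ ⟨1, h1, ?_⟩
  · intro m hm
    split_ifs
    · exact (selbergTerms_pos' P C N hP m hm).le
    · exact le_rfl
  · rw [if_pos hz]
    exact selbergTerms_pos' P C N hP 1 h1

lemma selW_one (P C N : ℕ) (hP : Squarefree P) (z : ℕ) (hz : 1 ≤ z) :
    selW P C N hP z 1 = 1 := by
  have hL := bigL_pos P C N hP z hz
  unfold selW
  have : (∑ m ∈ P.divisors, if 1 ∣ m ∧ m ≤ z then (sv P C N hP).selbergTerms m else 0) =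
      bigL P C N hP z := by
    unfold bigL
    refine Finset.sum_congr rfl (fun m _ => ?_)
    simp
  rw [this]
  simp [hL.ne']

lemma selW_bound (P C N : ℕ) (hP : Squarefree P) (z : ℕ) (hz : 1 ≤ z) (d : ℕ) :
    |selW P C N hP z d| ≤ if d ≤ z then (d : ℝ) else 0 := by
  have hL := bigL_pos P C N hP z hz
  unfold selW
  set S := ∑ m ∈ P.divisors, if d ∣ m ∧ m ≤ z then (sv P C N hP).selbergTerms m else 0 with hS
  have hS0 : 0 ≤ S := by
    apply Finset.sum_nonneg
    intro m hm
    split_ifs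
    · exact (selbergTerms_pos' P C N hP m hm).le
    · exact le_rfl
  have hSL : S ≤ bigL P C N hP z := by
    unfold bigL
    apply Finset.sum_le_sum
    intro m hm
    have := (selbergTerms_pos' P C N hP m hm).le
    split_ifs with h1 h2 h3
    · exact le_rfl
    · exact absurd h1.2 h2
    · exact this
    · exact le_rfl
  by_cases hdz : d ≤ z
  · rw [if_pos hdz, abs_mul, abs_mul]
    have h1 : |(μ d : ℝ)| ≤ 1 := by
      have := abs_moebius_le_one (n := d)
      have h2 : ((|μ d| : ℤ) : ℝ) ≤ 1 := by exact_mod_cast this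
      simpa using h2
    have h2 : |S / bigL P C N hP z| ≤ 1 := by
      rw [abs_of_nonneg (div_nonneg hS0 hL.le)]
      exact (div_le_one hL).mpr hSL
    have h3 : |(d : ℝ)| = d := abs_of_nonneg (by positivity)
    rw [h3]
    calc |(μ d : ℝ)| * d * |S / bigL P C N hP z| ≤ 1 * d * 1 := by gcongr
      _ = d := by ring
  · rw [if_neg hdz]
    have hS00 : S = 0 := by
      rw [hS]
      apply Finset.sum_eq_zero
      intro m hm
      rw [if_neg]
      rintro ⟨h1, h2⟩
      have hm0 : 0 < m := Nat.pos_of_mem_divisors hm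
      exact hdz ((Nat.le_of_dvd hm0 h1).trans h2)
    rw [hS00]
    simp

lemma inner_sum (P C N : ℕ) (hP : Squarefree P) (z : ℕ) (hz : 1 ≤ z) (l : ℕ)
    (hl : l ∈ P.divisors) :
    (∑ d ∈ P.divisors, if l ∣ d then (sv P C N hP).nu d * selW P C N hP z d else 0) =
      if l ≤ z then (μ l : ℝ) * (sv P C N hP).selbergTerms l / bigL P C N hP z else 0 := by
  have hL := bigL_pos P C N hP z hz
  have h1 : ∀ d ∈ P.divisors, (if l ∣ d then (sv P C N hP).nu d * selW P C N hP z d else 0) =
      ∑ m ∈ P.divisors, (if m ≤ z then (sv P C N hP).selbergTerms m / bigL P C N hP z else 0) *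
        (if l ∣ d ∧ d ∣ m then (μ d : ℝ) else 0) := by
    intro d hd
    have hd0 : (d : ℝ) ≠ 0 := by
      have := Nat.pos_of_mem_divisors hd
      positivity
    by_cases hld : l ∣ d
    · rw [if_pos hld]
      have hnu : (sv P C N hP).nu d = (d : ℝ)⁻¹ := rfl
      rw [hnu]
      unfold selW
      rw [Finset.sum_div, Finset.mul_sum, Finset.mul_sum]
      refine Finset.sum_congr rfl (fun m _ => ?_)
      by_cases hdm : d ∣ m
      · by_cases hmz : m ≤ z
        · simp only [hld, hdm, hmz, and_self, if_true]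
          field_simp
        · simp [hmz]
      · simp [hdm]
    · simp [hld]
  rw [Finset.sum_congr rfl h1, Finset.sum_comm]
  have h2 : ∀ m ∈ P.divisors, (∑ d ∈ P.divisors,
      (if m ≤ z then (sv P C N hP).selbergTerms m / bigL P C N hP z else 0) *
        (if l ∣ d ∧ d ∣ m then (μ d : ℝ) else 0)) =
      (if l = m then (if m ≤ z then (sv P C N hP).selbergTerms m / bigL P C N hP z else 0) *
        (μ m : ℝ) else 0) := by
    intro m hm
    rw [← Finset.mul_sum, moebius_sum_between P l m hP (Nat.dvd_of_mem_divisors hl)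
      (Nat.dvd_of_mem_divisors hm)]
    split_ifs <;> ring
  rw [Finset.sum_congr rfl h2, Finset.sum_ite_eq, if_pos hl]
  split_ifs <;> ring

lemma mainSum_selW (P C N : ℕ) (hP : Squarefree P) (z : ℕ) (hz : 1 ≤ z) :
    (sv P C N hP).mainSum (lambdaSquared (selW P C N hP z)) = (bigL P C N hP z)⁻¹ := by
  have hL := bigL_pos P C N hP z hz
  rw [mainSum_lambdaSquared_eq_sum_mul_sum_sq]
  have h1 : ∀ l ∈ (sv P C N hP).prodPrimes.divisors,
      ((sv P C N hP).selbergTerms l)⁻¹ *
        (∑ d ∈ (sv P C N hP).prodPrimes.divisors,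
          if l ∣ d then (sv P C N hP).nu d * selW P C N hP z d else 0) ^ 2 =
      (if l ≤ z then (sv P C N hP).selbergTerms l else 0) * (bigL P C N hP z)⁻¹ ^ 2 := by
    intro l hl
    have hl' : l ∈ P.divisors := hl
    have e : (∑ d ∈ (sv P C N hP).prodPrimes.divisors,
          if l ∣ d then (sv P C N hP).nu d * selW P C N hP z d else 0) =
        if l ≤ z then (μ l : ℝ) * (sv P C N hP).selbergTerms l / bigL P C N hP z else 0 :=
      inner_sum P C N hP z hz l hl'
    rw [e]
    have hg := selbergTerms_pos' P C N hP l hl'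
    by_cases hlz : l ≤ z
    · rw [if_pos hlz, if_pos hlz]
      have hsq : Squarefree l := hP.squarefree_of_dvd (Nat.dvd_of_mem_divisors hl')
      have hmu : (μ l : ℝ) ^ 2 = 1 := by
        have := abs_moebius_eq_one_of_squarefree hsq
        have h2 : (μ l) ^ 2 = 1 := by
          rw [← sq_abs, this]; norm_num
        exact_mod_cast h2
      field_simp
      rw [hmu]
    · rw [if_neg hlz, if_neg hlz]
      simp
  rw [Finset.sum_congr rfl h1, ← Finset.sum_mul]
  have : (∑ i ∈ (sv P C N hP).prodPrimes.divisors,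
      if i ≤ z then (sv P C N hP).selbergTerms i else 0) = bigL P C N hP z := rfl
  rw [this]
  field_simp

lemma errSum_selW (P C N : ℕ) (hP : Squarefree P) (z : ℕ) (hz : 1 ≤ z) :
    (sv P C N hP).errSum (lambdaSquared (selW P C N hP z)) ≤ (z : ℝ) ^ 4 := by
  set w := selW P C N hP z with hw
  have hP0 : P ≠ 0 := hP.ne_zero
  have h0 : (sv P C N hP).errSum (lambdaSquared w) ≤
      ∑ d ∈ P.divisors, |lambdaSquared w d| := by
    have : (sv P C N hP).errSum (lambdaSquared w) =
        ∑ d ∈ P.divisors, |lambdaSquared w d| * |(sv P C N hP).rem d| := rfl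
    rw [this]
    apply Finset.sum_le_sum
    intro d hd
    have h1 := rem_bound P C N hP d (Nat.pos_of_mem_divisors hd)
    calc |lambdaSquared w d| * |(sv P C N hP).rem d| ≤ |lambdaSquared w d| * 1 := by gcongr
      _ = _ := mul_one _
  have h1 : ∑ d ∈ P.divisors, |lambdaSquared w d| ≤
      ∑ d ∈ P.divisors, ∑ d1 ∈ P.divisors, ∑ d2 ∈ P.divisors,
        (if d = Nat.lcm d1 d2 then |w d1| * |w d2| else 0) := by
    apply Finset.sum_le_sum
    intro d hd
    have hdP := Nat.dvd_of_mem_divisors hd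
    have hsub : d.divisors ⊆ P.divisors := Nat.divisors_subset_of_dvd hP0 hdP
    unfold lambdaSquared
    calc |∑ d1 ∈ d.divisors, ∑ d2 ∈ d.divisors, if d = Nat.lcm d1 d2 then w d1 * w d2 else 0|
        ≤ ∑ d1 ∈ d.divisors, ∑ d2 ∈ d.divisors,
            |if d = Nat.lcm d1 d2 then w d1 * w d2 else 0| := by
          refine (Finset.abs_sum_le_sum_abs _ _).trans ?_
          exact Finset.sum_le_sum (fun i _ => Finset.abs_sum_le_sum_abs _ _)
      _ = ∑ d1 ∈ d.divisors, ∑ d2 ∈ d.divisors,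
            (if d = Nat.lcm d1 d2 then |w d1| * |w d2| else 0) := by
          refine Finset.sum_congr rfl (fun i _ => Finset.sum_congr rfl (fun j _ => ?_))
          split_ifs
          · rw [abs_mul]
          · simp
      _ ≤ ∑ d1 ∈ P.divisors, ∑ d2 ∈ P.divisors,
            (if d = Nat.lcm d1 d2 then |w d1| * |w d2| else 0) := by
          have hnn : ∀ d1 d2 : ℕ, 0 ≤ (if d = Nat.lcm d1 d2 then |w d1| * |w d2| else 0) := by
            intro d1 d2
            split_ifs
            · positivity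
            · exact le_rfl
          refine (Finset.sum_le_sum_of_subset_of_nonneg hsub
            (fun i _ _ => Finset.sum_nonneg (fun j _ => hnn i j))).trans ?_
          exact Finset.sum_le_sum (fun i _ => Finset.sum_le_sum_of_subset_of_nonneg hsub
            (fun j _ _ => hnn i j))
  have h2 : ∑ d ∈ P.divisors, ∑ d1 ∈ P.divisors, ∑ d2 ∈ P.divisors,
        (if d = Nat.lcm d1 d2 then |w d1| * |w d2| else 0) ≤
      ∑ d1 ∈ P.divisors, ∑ d2 ∈ P.divisors, |w d1| * |w d2| := by
    rw [Finset.sum_comm]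
    apply Finset.sum_le_sum
    intro d1 _
    rw [Finset.sum_comm]
    apply Finset.sum_le_sum
    intro d2 _
    rw [Finset.sum_ite_eq' P.divisors (Nat.lcm d1 d2) (fun _ => |w d1| * |w d2|)]
    split_ifs
    · exact le_rfl
    · positivity
  have h3 : ∑ d1 ∈ P.divisors, ∑ d2 ∈ P.divisors, |w d1| * |w d2| =
      (∑ d ∈ P.divisors, |w d|) ^ 2 := by
    rw [sq, Finset.sum_mul_sum]
  have h4 : ∑ d ∈ P.divisors, |w d| ≤ (z : ℝ) ^ 2 := by
    calc ∑ d ∈ P.divisors, |w d| ≤ ∑ d ∈ P.divisors, (if d ≤ z then (d : ℝ) else 0) :=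
          Finset.sum_le_sum (fun d _ => selW_bound P C N hP z hz d)
      _ = ∑ d ∈ P.divisors.filter (fun d => d ≤ z), (d : ℝ) := by rw [Finset.sum_filter]
      _ ≤ ∑ d ∈ Finset.Icc 1 z, (d : ℝ) := by
          apply Finset.sum_le_sum_of_subset_of_nonneg
          · intro d hd
            simp only [Finset.mem_filter] at hd
            simp only [Finset.mem_Icc]
            exact ⟨Nat.pos_of_mem_divisors hd.1, hd.2⟩
          · intro i _ _
            positivity
      _ ≤ ∑ d ∈ Finset.Icc 1 z, (z : ℝ) := by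
          apply Finset.sum_le_sum
          intro d hd
          simp only [Finset.mem_Icc] at hd
          exact_mod_cast hd.2
      _ = (z : ℝ) ^ 2 := by simp [sq]
  calc (sv P C N hP).errSum (lambdaSquared w) ≤ (∑ d ∈ P.divisors, |w d|) ^ 2 :=
        h0.trans (h1.trans (h2.trans h3.le))
    _ ≤ ((z : ℝ) ^ 2) ^ 2 := by
        gcongr
    _ = (z : ℝ) ^ 4 := by ring

/-- Selberg's upper bound for the number of integers in `[C, C+N)` coprime to `P`. -/
theorem selberg_bound (P C N : ℕ) (hP : Squarefree P) (z : ℕ) (hz : 1 ≤ z) :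
    (((Ico C (C + N)).filter (fun n => Nat.Coprime P n)).card : ℝ) ≤
      N / bigL P C N hP z + (z : ℝ) ^ 4 := by
  rw [← siftedSum_eq P C N hP]
  have h := siftedSum_le_mainSum_errSum_of_upperMoebius (s := sv P C N hP)
    (lambdaSquared (selW P C N hP z))
    (upperMoebius_lambdaSquared _ (selW_one P C N hP z hz))
  rw [mainSum_selW P C N hP z hz] at h
  have h2 := errSum_selW P C N hP z hz
  have h3 : (sv P C N hP).totalMass = N := rfl
  rw [h3] at h
  calc (sv P C N hP).siftedSum ≤ _ := h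
    _ ≤ N * (bigL P C N hP z)⁻¹ + (z : ℝ) ^ 4 := by gcongr
    _ = _ := by rw [div_eq_mul_inv]

end

end Pool.Agent.Lib.MP_f3a92d_nt
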