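import Mathlib
import Pool.Agent.Lib.MP_f3a92d_nt.Sieve

set_option autoImplicit false

namespace Pool.Agent.Lib.MP_f3a92d_nt

open Finset ArithmeticFunction BoundingSieve

noncomputable section

/-- The product of the primes up to `z` not dividing `M`. -/
def PM (M z : ℕ) : ℕ := ∏ p ∈ (Icc 1 z).filter (fun p => p.Prime ∧ ¬ p ∣ M), p

lemma prime_dvd_PM {M z p : ℕ} (hp : p.Prime) : p ∣ PM M z ↔ p ≤ z ∧ ¬ p ∣ M := by
  unfold PM
  rw [Prime.dvd_finsetProd_iff hp.prime]
  constructor
  · rintro ⟨q, hq, hpq⟩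
    simp only [Finset.mem_filter, Finset.mem_Icc] at hq
    rw [Nat.prime_dvd_prime_iff_eq hp hq.2.1] at hpq
    subst hpq
    exact ⟨hq.1.2, hq.2.2⟩
  · rintro ⟨h1, h2⟩
    exact ⟨p, by simp [hp.one_lt.le, h1, hp, h2], dvd_rfl⟩

lemma PM_squarefree (M z : ℕ) : Squarefree (PM M z) := by
  unfold PM
  refine Finset.squarefree_prod_of_pairwise_isCoprime ?_ ?_
  · intro p hp q hq hpq
    simp only [Finset.coe_filter, Set.mem_ofPred_eq] at hp hq
    rw [Function.onFun, ← Nat.coprime_iff_isRelPrime]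
    exact (Nat.coprime_primes hp.2.1 hq.2.1).mpr hpq
  · intro p hp
    simp only [Finset.mem_filter] at hp
    exact hp.2.1.prime.squarefree

lemma PM_ne_zero (M z : ℕ) : PM M z ≠ 0 := (PM_squarefree M z).ne_zero

/-- The monoid hom `n ↦ 1/n`. -/
def invHom : ℕ →* ℝ where
  toFun n := (n : ℝ)⁻¹
  map_one' := by simp
  map_mul' m n := by simp [mul_comm]

lemma sum_inv_rad_le (l : ℕ) (hl : Squarefree l) (z : ℕ) :
    ∑ n ∈ (Icc 1 z).filter (fun n => ∏ p ∈ n.primeFactors, p = l), (n : ℝ)⁻¹ ≤
      (l : ℝ)⁻¹ * ∏ p ∈ l.primeFactors, (1 - (p : ℝ)⁻¹)⁻¹ := by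
  have hl0 : 0 < l := Nat.pos_of_ne_zero hl.ne_zero
  have hl0' : (l : ℝ) ≠ 0 := by positivity
  set S := (Icc 1 z).filter (fun n => ∏ p ∈ n.primeFactors, p = l) with hS
  have hdvd : ∀ n ∈ S, l ∣ n := by
    intro n hn
    simp only [hS, Finset.mem_filter] at hn
    rw [← hn.2]
    exact Nat.prod_primeFactors_dvd n
  have hH := (EulerProduct.summable_and_hasSum_factoredNumbers_prod_filter_prime_geometric
    (f := invHom) (by
      intro p hp
      simp only [invHom, MonoidHom.coe_mk, OneHom.coe_mk, norm_inv, RCLike.norm_natCast]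
      exact inv_lt_one_of_one_lt₀ (by exact_mod_cast hp.one_lt)) l.primeFactors).2
  have hprod : ∏ p ∈ l.primeFactors with p.Prime, (1 - invHom p)⁻¹ =
      ∏ p ∈ l.primeFactors, (1 - (p : ℝ)⁻¹)⁻¹ := by
    apply Finset.prod_congr
    · ext p
      simp only [Finset.mem_filter, and_iff_left_iff_imp]
      exact fun h => Nat.prime_of_mem_primeFactors h
    · intro p _
      rfl
  rw [hprod] at hH
  have h1 : ∑ n ∈ S, (n : ℝ)⁻¹ = (l : ℝ)⁻¹ * ∑ m ∈ S.image (fun n => n / l), (m : ℝ)⁻¹ := by
    rw [Finset.sum_image, Finset.mul_sum]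
    · refine Finset.sum_congr rfl (fun n hn => ?_)
      obtain ⟨m, rfl⟩ := hdvd n hn
      rw [Nat.mul_div_cancel_left m hl0]
      push_cast
      rw [mul_inv]
    · intro a ha b hb hab
      simp only at hab
      obtain ⟨m, rfl⟩ := hdvd a ha
      obtain ⟨k, rfl⟩ := hdvd b hb
      rw [Nat.mul_div_cancel_left m hl0, Nat.mul_div_cancel_left k hl0] at hab
      rw [hab]
  rw [h1]
  apply mul_le_mul_of_nonneg_left _ (by positivity)
  set T := S.image (fun n => n / l) with hT
  have hTmem : ∀ m ∈ T, m ∈ Nat.factoredNumbers l.primeFactors := by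
    intro m hm
    simp only [hT, Finset.mem_image] at hm
    obtain ⟨n, hn, rfl⟩ := hm
    obtain ⟨k, hk⟩ := hdvd n hn
    simp only [hS, Finset.mem_filter, Finset.mem_Icc] at hn
    rw [Nat.mem_factoredNumbers']
    intro p hp hpk
    have hn0 : n ≠ 0 := by omega
    have hpn : p ∣ n := by
      rw [hk]
      rw [hk, Nat.mul_div_cancel_left k hl0] at hpk
      exact dvd_mul_of_dvd_right hpk l
    have hpl : p ∣ l := by
      rw [← hn.2]
      exact Finset.dvd_prod_of_mem _ (Nat.mem_primeFactors.mpr ⟨hp, hpn, hn0⟩)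
    exact Nat.mem_primeFactors.mpr ⟨hp, hpl, hl0.ne'⟩
  have h2 : ∑ m ∈ T, (m : ℝ)⁻¹ =
      ∑ m ∈ T.subtype (· ∈ Nat.factoredNumbers l.primeFactors), invHom m := by
    rw [Finset.sum_subtype_of_mem (fun m : ℕ => (invHom m : ℝ)) hTmem]
    rfl
  rw [h2]
  apply sum_le_hasSum _ _ hH
  intro i _
  simp only [invHom, MonoidHom.coe_mk, OneHom.coe_mk]
  positivity

lemma bigL_ge (M z C N : ℕ) :
    ∑ n ∈ (Icc 1 z).filter (fun n => M.Coprime n), (n : ℝ)⁻¹ ≤
      bigL (PM M z) C N (PM_squarefree M z) z := by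
  set S := (Icc 1 z).filter (fun n => M.Coprime n) with hS
  set D := (PM M z).divisors.filter (fun m => m ≤ z) with hD
  have hmaps : ∀ n ∈ S, ∏ p ∈ n.primeFactors, p ∈ D := by
    intro n hn
    simp only [hS, Finset.mem_filter, Finset.mem_Icc] at hn
    have hle : ∏ p ∈ n.primeFactors, p ≤ n := Nat.le_of_dvd (by omega) (Nat.prod_primeFactors_dvd n)
    simp only [hD, Finset.mem_filter, Nat.mem_divisors]
    refine ⟨⟨?_, PM_ne_zero M z⟩, by omega⟩
    unfold PM
    apply Finset.prod_dvd_prod_of_subset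
    intro p hp
    rw [Nat.mem_primeFactors] at hp
    have hpn : p ≤ n := Nat.le_of_dvd (by omega) hp.2.1
    simp only [Finset.mem_filter, Finset.mem_Icc]
    refine ⟨⟨hp.1.one_lt.le, by omega⟩, hp.1, ?_⟩
    intro hpM
    have := Nat.dvd_gcd hpM hp.2.1
    rw [hn.2] at this
    exact hp.1.one_lt.ne' (Nat.dvd_one.mp this)
  rw [← Finset.sum_fiberwise_of_maps_to hmaps]
  have hbig : bigL (PM M z) C N (PM_squarefree M z) z =
      ∑ m ∈ D, (sv (PM M z) C N (PM_squarefree M z)).selbergTerms m := by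
    unfold bigL
    rw [hD, Finset.sum_filter]
  rw [hbig]
  apply Finset.sum_le_sum
  intro l hl
  simp only [hD, Finset.mem_filter, Nat.mem_divisors] at hl
  have hlsq : Squarefree l := (PM_squarefree M z).squarefree_of_dvd hl.1.1
  rw [selbergTerms_apply]
  refine le_trans ?_ (sum_inv_rad_le l hlsq z)
  apply Finset.sum_le_sum_of_subset_of_nonneg
  · intro n hn
    simp only [hS, Finset.mem_filter] at hn
    simp only [Finset.mem_filter]
    exact ⟨hn.1.1, hn.2⟩
  · intro i _ _
    positivity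

lemma sum_coprime_ge (M z : ℕ) (hM : 0 < M) (hz : M ≤ z) :
    ((M.totient : ℝ) / M) * Real.log ((z : ℝ) / M) ≤
      ∑ n ∈ (Icc 1 z).filter (fun n => M.Coprime n), (n : ℝ)⁻¹ := by
  set J := z / M with hJ
  have hMpos : (0 : ℝ) < M := by exact_mod_cast hM
  -- blocks
  have hdisj : (Finset.range J : Set ℕ).PairwiseDisjoint
      (fun j => (Ico (1 + j * M) (1 + j * M + M)).filter (fun n => M.Coprime n)) := by
    intro i _ j _ hij
    rw [Function.onFun, Finset.disjoint_left]
    intro n hn hn'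
    simp only [Finset.mem_filter, Finset.mem_Ico] at hn hn'
    rcases lt_or_gt_of_ne hij with h | h
    · have : (i + 1) * M ≤ j * M := Nat.mul_le_mul_right M h
      nlinarith
    · have : (j + 1) * M ≤ i * M := Nat.mul_le_mul_right M h
      nlinarith
  have hsub : (Finset.range J).biUnion
      (fun j => (Ico (1 + j * M) (1 + j * M + M)).filter (fun n => M.Coprime n)) ⊆
      (Icc 1 z).filter (fun n => M.Coprime n) := by
    intro n hn
    simp only [Finset.mem_biUnion, Finset.mem_range, Finset.mem_filter, Finset.mem_Ico] at hn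
    obtain ⟨j, hj, hn1, hn2⟩ := hn
    simp only [Finset.mem_filter, Finset.mem_Icc]
    refine ⟨⟨by omega, ?_⟩, hn2⟩
    have h1 : (j + 1) * M ≤ J * M := Nat.mul_le_mul_right M hj
    have h2 : J * M ≤ z := Nat.div_mul_le_self z M
    have h3 : n < 1 + (j + 1) * M := by
      calc n < 1 + j * M + M := hn1.2
        _ = 1 + (j + 1) * M := by ring
    omega
  have h1 : ∑ j ∈ Finset.range J, ((M.totient : ℝ) / M) * ((j : ℝ) + 1)⁻¹ ≤
      ∑ n ∈ (Icc 1 z).filter (fun n => M.Coprime n), (n : ℝ)⁻¹ := by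
    refine le_trans ?_ (Finset.sum_le_sum_of_subset_of_nonneg hsub
      (fun i _ _ => by positivity))
    rw [Finset.sum_biUnion hdisj]
    apply Finset.sum_le_sum
    intro j _
    have hcard : ((Ico (1 + j * M) (1 + j * M + M)).filter (fun n => M.Coprime n)).card =
        M.totient := Nat.filter_coprime_Ico_eq_totient M (1 + j * M)
    calc ((M.totient : ℝ) / M) * ((j : ℝ) + 1)⁻¹ =
          ∑ n ∈ (Ico (1 + j * M) (1 + j * M + M)).filter (fun n => M.Coprime n),
            (((j : ℝ) + 1) * M)⁻¹ := by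
          rw [Finset.sum_const, hcard, nsmul_eq_mul, mul_inv]
          field_simp
      _ ≤ _ := by
          apply Finset.sum_le_sum
          intro n hn
          simp only [Finset.mem_filter, Finset.mem_Ico] at hn
          have hn0 : (0 : ℝ) < n := by
            have : 0 < n := by omega
            exact_mod_cast this
          apply inv_anti₀ hn0
          have : n ≤ (j + 1) * M := by
            have := hn.1.2
            have e : (j + 1) * M = j * M + M := by ring
            omega
          exact_mod_cast this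
  refine le_trans ?_ h1
  rw [← Finset.mul_sum]
  apply mul_le_mul_of_nonneg_left _ (by positivity)
  have h2 : Real.log ((J + 1 : ℕ) : ℝ) ≤ ∑ j ∈ Finset.range J, ((j : ℝ) + 1)⁻¹ := by
    have := log_add_one_le_harmonic J
    refine this.trans (le_of_eq ?_)
    simp [harmonic]
  refine le_trans ?_ h2
  have hz0 : (0 : ℝ) < z := by
    have : 0 < z := by omega
    exact_mod_cast this
  apply Real.log_le_log (by positivity)
  rw [div_le_iff₀ hMpos]
  have : z < (J + 1) * M := by
    have := Nat.lt_div_mul_add (a := z) hM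
    calc z < z / M * M + M := this
      _ = (J + 1) * M := by ring
  exact_mod_cast this.le

end

end Pool.Agent.Lib.MP_f3a92d_nt
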