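import Mathlib
import Pool.Agent.Lib.MP_f3a92d_nt.SieveL

set_option autoImplicit false

namespace Pool.Agent.Lib.MP_f3a92d_nt

open Finset

noncomputable section

/-- Sieve bound for arbitrary residue classes: general `z`. -/
lemma classes_bound (M N z : ℕ) (hM : 0 < M) (hz : M < z) (c : ℕ → ℕ) (S : Finset ℕ)
    (hSN : ∀ t ∈ S, t < N)
    (hS : ∀ t ∈ S, ∀ p, p.Prime → p ≤ z → ¬ p ∣ M → ¬ t ≡ c p [MOD p]) :
    (S.card : ℝ) ≤
      N / (((M.totient : ℝ) / M) * Real.log ((z : ℝ) / M)) + (z : ℝ) ^ 4 := by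
  -- choose a shift by the Chinese remainder theorem
  set T := (Icc 1 z).filter (fun p => p.Prime ∧ ¬ p ∣ M) with hT
  have hs : ∀ i ∈ T, (fun p : ℕ => p) i ≠ 0 := by
    intro p hp
    simp only [hT, Finset.mem_filter] at hp
    exact hp.2.1.ne_zero
  have hpp : Set.Pairwise (T : Set ℕ) (Function.onFun Nat.Coprime (fun p : ℕ => p)) := by
    intro p hp q hq hpq
    simp only [hT, Finset.coe_filter, Set.mem_ofPred_eq] at hp hq
    exact (Nat.coprime_primes hp.2.1 hq.2.1).mpr hpq
  obtain ⟨C, hC⟩ := Nat.chineseRemainderOfFinset (fun p => p - c p % p) (fun p => p) T hs hpp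
  have hcard : S.card ≤
      ((Ico C (C + N)).filter (fun n => Nat.Coprime (PM M z) n)).card := by
    apply Finset.card_le_card_of_injOn (fun t => C + t)
    · intro t ht
      have htN := hSN t ht
      simp only [Finset.coe_filter, Finset.mem_Ico, Set.mem_ofPred_eq]
      refine ⟨⟨by omega, by omega⟩, ?_⟩
      apply Nat.Coprime.symm
      by_contra hcop
      obtain ⟨p, hp, hp1, hp2⟩ := Nat.Prime.not_coprime_iff_dvd.mp hcop
      rw [prime_dvd_PM hp] at hp2
      apply hS t ht p hp hp2.1 hp2.2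
      have hCp := hC p (by simp [hT, hp.one_lt.le, hp2.1, hp, hp2.2])
      have hlt : c p % p < p := Nat.mod_lt _ hp.pos
      have h0 : C + t ≡ 0 [MOD p] := (Nat.modEq_zero_iff_dvd).mpr hp1
      have h1 : (p - c p % p) + t ≡ 0 [MOD p] := (Nat.ModEq.add_right t hCp.symm).trans h0
      have h2 : (p - c p % p) + t + c p % p ≡ 0 + c p % p [MOD p] := Nat.ModEq.add_right _ h1
      have h3 : (p - c p % p) + t + c p % p = p + t := by omega
      rw [h3, zero_add] at h2
      have h4 : t ≡ p + t [MOD p] := by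
        simp [Nat.ModEq]
      exact (h4.trans h2).trans (Nat.mod_modEq _ _)
    · intro a _ b _ hab
      simpa using hab
  have hsel := selberg_bound (PM M z) C N (PM_squarefree M z) z (by omega)
  have hL := bigL_ge M z C N
  have hL2 := sum_coprime_ge M z hM hz.le
  have hMpos : (0 : ℝ) < M := by exact_mod_cast hM
  have hpos : 0 < ((M.totient : ℝ) / M) * Real.log ((z : ℝ) / M) := by
    apply mul_pos
    · have := Nat.totient_pos.mpr hM
      positivity
    · apply Real.log_pos
      rw [lt_div_iff₀ hMpos, one_mul]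
      exact_mod_cast hz
  calc (S.card : ℝ)
      ≤ (((Ico C (C + N)).filter (fun n => Nat.Coprime (PM M z) n)).card : ℝ) := by
        exact_mod_cast hcard
    _ ≤ N / bigL (PM M z) C N (PM_squarefree M z) z + (z : ℝ) ^ 4 := hsel
    _ ≤ _ := by
        gcongr
        exact hL2.trans hL

/-- The sieve bound used in the paper: one arbitrary class for each prime not dividing `M`. -/
theorem sieve_S (M : ℕ) (hM : 0 < M) : ∃ N0 : ℕ, ∀ N ≥ N0, ∀ c : ℕ → ℕ, ∀ z : ℕ,
    N ≤ z ^ 8 → ∀ S : Finset ℕ, (∀ t ∈ S, t < N) →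
    (∀ t ∈ S, ∀ p, p.Prime → p ≤ z → ¬ p ∣ M → ¬ t ≡ c p [MOD p]) →
    (S.card : ℝ) ≤ 10 * ((M : ℝ) / M.totient) * (N / Real.log N) := by
  refine ⟨(2 * M) ^ 72 + 256, ?_⟩
  intro N hN c z hz S hSN hS
  have hMpos : (0 : ℝ) < M := by exact_mod_cast hM
  have hN0 : 0 < N := by
    have : 0 < 256 := by norm_num
    omega
  have hNr : (0 : ℝ) < N := by exact_mod_cast hN0
  set y : ℝ := (N : ℝ) ^ (1 / 8 : ℝ) with hy
  have hy0 : 0 < y := Real.rpow_pos_of_pos hNr _
  have hy8 : y ^ 8 = N := by
    rw [hy, ← Real.rpow_natCast, ← Real.rpow_mul hNr.le]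
    norm_num
  set z0 := ⌊y⌋₊ with hz0
  have hy2 : 2 ≤ y := by
    by_contra! h
    have h1 : y ^ 8 < 2 ^ 8 := by gcongr
    rw [hy8] at h1
    have h2 : (256 : ℝ) ≤ N := by
      have : 256 ≤ N := by omega
      exact_mod_cast this
    linarith
  have hz0y : (z0 : ℝ) ≤ y := Nat.floor_le hy0.le
  have hz0y' : y / 2 ≤ z0 := by
    have := Nat.lt_floor_add_one y
    rw [← hz0] at this
    linarith
  have hz0z : z0 ≤ z := by
    have h1 : (z0 : ℝ) ^ 8 ≤ (z : ℝ) ^ 8 := by
      calc (z0 : ℝ) ^ 8 ≤ y ^ 8 := by gcongr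
        _ = (N : ℝ) := hy8
        _ ≤ (z : ℝ) ^ 8 := by exact_mod_cast hz
    have h2 : (z0 : ℝ) ≤ z := by
      by_contra! h
      have : (z : ℝ) ^ 8 < (z0 : ℝ) ^ 8 := by gcongr
      linarith
    exact_mod_cast h2
  have hlogN : 0 < Real.log N := by
    apply Real.log_pos
    have : 1 < N := by
      have : 1 < 256 := by norm_num
      omega
    exact_mod_cast this
  -- lower bound for log (z0 / M)
  have hlogz : Real.log N / 9 ≤ Real.log ((z0 : ℝ) / M) := by
    have h1 : Real.log (y / 2 / M) ≤ Real.log ((z0 : ℝ) / M) := by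
      apply Real.log_le_log (by positivity)
      gcongr
    refine le_trans ?_ h1
    have h2 : Real.log (y / 2 / M) = Real.log N / 8 - Real.log (2 * M) := by
      rw [Real.log_div (by positivity) hMpos.ne', Real.log_div hy0.ne' (by norm_num),
        Real.log_mul (by norm_num) hMpos.ne', hy, Real.log_rpow hNr]
      ring
    rw [h2]
    have h3 : 72 * Real.log (2 * M) ≤ Real.log N := by
      have : Real.log ((2 * M : ℝ) ^ 72) ≤ Real.log N := by
        apply Real.log_le_log (by positivity)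
        have : (2 * M) ^ 72 ≤ N := by omega
        exact_mod_cast this
      rw [Real.log_pow] at this
      exact_mod_cast this
    linarith
  have hMz0 : M < z0 := by
    by_contra! h
    have h1 : (z0 : ℝ) / M ≤ 1 := by
      rw [div_le_one hMpos]
      exact_mod_cast h
    have h2 : Real.log ((z0 : ℝ) / M) ≤ 0 := by
      apply Real.log_nonpos (by positivity) h1
    have : 0 < Real.log N / 9 := by positivity
    linarith
  have hmain := classes_bound M N z0 hM hMz0 c S hSN
    (fun t ht p hp hpz hpM => hS t ht p hp (hpz.trans hz0z) hpM)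
  have htot : (0 : ℝ) < M.totient := by
    have := Nat.totient_pos.mpr hM
    exact_mod_cast this
  have hratio : (1 : ℝ) ≤ (M : ℝ) / M.totient := by
    rw [le_div_iff₀ htot, one_mul]
    exact_mod_cast Nat.totient_le M
  have h1 : (N : ℝ) / (((M.totient : ℝ) / M) * Real.log ((z0 : ℝ) / M)) ≤
      9 * ((M : ℝ) / M.totient) * (N / Real.log N) := by
    calc (N : ℝ) / (((M.totient : ℝ) / M) * Real.log ((z0 : ℝ) / M))
        ≤ (N : ℝ) / (((M.totient : ℝ) / M) * (Real.log N / 9)) := by
          gcongr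
      _ = _ := by
          field_simp
  have h2 : (z0 : ℝ) ^ 4 ≤ N / Real.log N := by
    have h3 : (z0 : ℝ) ^ 4 ≤ y ^ 4 := by gcongr
    refine h3.trans ?_
    rw [le_div_iff₀ hlogN]
    have h4 : Real.log N ≤ y ^ 4 := by
      have h5 : Real.log N = 4 * Real.log (y ^ 2) := by
        rw [← hy8, Real.log_pow, Real.log_pow]
        push_cast
        ring
      have h6 : Real.log (y ^ 2) ≤ y ^ 2 - 1 := Real.log_le_sub_one_of_pos (by positivity)
      nlinarith [sq_nonneg (y ^ 2 - 2)]
    calc y ^ 4 * Real.log N ≤ y ^ 4 * y ^ 4 := by gcongr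
      _ = y ^ 8 := by ring
      _ = N := hy8
  have h3 : (N : ℝ) / Real.log N ≤ ((M : ℝ) / M.totient) * (N / Real.log N) := by
    have : (0 : ℝ) ≤ N / Real.log N := by positivity
    nlinarith
  calc (S.card : ℝ) ≤ _ := hmain
    _ ≤ 9 * ((M : ℝ) / M.totient) * (N / Real.log N) +
        ((M : ℝ) / M.totient) * (N / Real.log N) := by
        gcongr
        exact h2.trans h3
    _ = _ := by ring

end

end Pool.Agent.Lib.MP_f3a92d_nt
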