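import Mathlib
import Pool.Agent.Lib.MP_f3a92d_nt.SieveS
import Pool.Agent.Lib.MP_f3a92d_nt.PrimeBlock

set_option autoImplicit false

namespace Pool.Agent.Lib.MP_f3a92d_nt

open Finset

noncomputable section

/-- Sieve bound in an arithmetic progression. -/
theorem sieve_prog (M : ℕ) (hM : 0 < M) : ∃ X0 : ℕ, ∀ X ≥ X0, ∀ b : ℕ, ∀ a : ℕ → ℕ,
    ∀ S : Finset ℕ, (∀ n ∈ S, n < X ∧ n % M = b ∧
      ∀ p, p.Prime → p ≤ Nat.sqrt X → ¬ p ∣ M → ¬ n ≡ a p [MOD p]) →
    (S.card : ℝ) ≤ 40 * ((X : ℝ) / (M.totient * Real.log X)) := by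
  obtain ⟨N0, hN0⟩ := sieve_S M hM
  refine ⟨(N0 + 1) * M + M ^ 2 + 16, ?_⟩
  intro X hX b a S hS
  have hMpos : (0 : ℝ) < M := by exact_mod_cast hM
  set N := X / M + 1 with hN
  have hX16 : 16 ≤ X := by omega
  have hNN0 : N0 ≤ N := by
    have h1 : (N0 + 1) * M ≤ X := by omega
    have h2 : N0 + 1 ≤ X / M := (Nat.le_div_iff_mul_le hM).mpr h1
    omega
  -- classes
  have hcex : ∀ p : ℕ, ∃ c : ℕ, p.Prime → ¬ p ∣ M → b + M * c ≡ a p [MOD p] := by
    intro p
    by_cases hp : p.Prime ∧ ¬ p ∣ M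
    · obtain ⟨hp, hpM⟩ := hp
      have hcop : Nat.Coprime M p := ((Nat.Prime.coprime_iff_not_dvd hp).mpr hpM).symm
      have : Fact p.Prime := ⟨hp⟩
      have hMne : (M : ZMod p) ≠ 0 := by
        intro h
        exact hpM ((ZMod.natCast_eq_zero_iff M p).mp h)
      refine ⟨(((a p : ZMod p) - b) * (M : ZMod p)⁻¹).val, fun _ _ => ?_⟩
      rw [← ZMod.natCast_eq_natCast_iff]
      push_cast
      rw [ZMod.natCast_zmod_val]
      field_simp
      ring
    · refine ⟨0, fun h1 h2 => absurd ⟨h1, h2⟩ hp⟩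
  choose c hc using hcex
  have hz : N ≤ (Nat.sqrt X) ^ 8 := by
    have h1 : X < (Nat.sqrt X + 1) ^ 2 := by
      have := Nat.lt_succ_sqrt X
      calc X < (Nat.sqrt X).succ * (Nat.sqrt X).succ := this
        _ = (Nat.sqrt X + 1) ^ 2 := by rw [Nat.succ_eq_add_one]; ring
    have h2 : 4 ≤ Nat.sqrt X := by
      rw [Nat.le_sqrt]
      omega
    have h3 : N ≤ X + 1 := by
      have : X / M ≤ X := Nat.div_le_self X M
      omega
    set s := Nat.sqrt X with hs
    have h4 : (s + 1) ^ 2 ≤ s ^ 4 := by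
      have : s + 1 ≤ s ^ 2 := by nlinarith
      calc (s + 1) ^ 2 ≤ (s ^ 2) ^ 2 := Nat.pow_le_pow_left this 2
        _ = s ^ 4 := by ring
    have h5 : s ^ 4 ≤ s ^ 8 := Nat.pow_le_pow_right (by omega) (by norm_num)
    omega
  set T := S.image (fun n => n / M) with hT
  have hinj : Set.InjOn (fun n => n / M) (S : Set ℕ) := by
    intro n hn m hm hnm
    have h1 := (hS n hn).2.1
    have h2 := (hS m hm).2.1
    simp only at hnm
    have e1 := Nat.div_add_mod n M
    have e2 := Nat.div_add_mod m M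
    rw [h1] at e1
    rw [h2] at e2
    rw [← e1, ← e2, hnm]
  have hcardT : T.card = S.card := Finset.card_image_of_injOn hinj
  have hb := hN0 N hNN0 c (Nat.sqrt X) hz T (by
    intro t ht
    simp only [hT, Finset.mem_image] at ht
    obtain ⟨n, hn, rfl⟩ := ht
    have := (hS n hn).1
    have h2 : n / M ≤ X / M := Nat.div_le_div_right this.le
    omega) (by
    intro t ht p hp hpz hpM hmod
    simp only [hT, Finset.mem_image] at ht
    obtain ⟨n, hn, rfl⟩ := ht
    obtain ⟨_, h2, h3⟩ := hS n hn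
    apply h3 p hp hpz hpM
    have e1 := Nat.div_add_mod n M
    rw [h2] at e1
    have h4 : b + M * (n / M) ≡ b + M * c p [MOD p] :=
      Nat.ModEq.add_left b (Nat.ModEq.mul_left M hmod)
    have h5 := h4.trans (hc p hp hpM)
    have h6 : b + M * (n / M) = n := by omega
    rw [h6] at h5
    exact h5)
  rw [hcardT] at hb
  have htot : (0 : ℝ) < M.totient := by
    have := Nat.totient_pos.mpr hM
    exact_mod_cast this
  have hXr : (0 : ℝ) < X := by
    have : 0 < X := by omega
    exact_mod_cast this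
  have hlogX : 0 < Real.log X := by
    apply Real.log_pos
    have : 1 < X := by omega
    exact_mod_cast this
  -- N ≥ X / M ≥ sqrt X
  have hNge : (X : ℝ) / M ≤ N := by
    rw [div_le_iff₀ hMpos]
    have : X < N * M := by
      have := Nat.lt_div_mul_add (a := X) hM
      calc X < X / M * M + M := this
        _ = N * M := by rw [hN]; ring
    exact_mod_cast this.le
  have hNle : (N : ℝ) ≤ 2 * (X / M) := by
    have h1 : M ≤ X := by nlinarith [Nat.le_self_pow (two_ne_zero) M]
    have h2 : (1 : ℝ) ≤ X / M := by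
      rw [le_div_iff₀ hMpos, one_mul]
      exact_mod_cast h1
    have h3 : ((X / M : ℕ) : ℝ) ≤ X / M := Nat.cast_div_le
    rw [hN]
    push_cast
    linarith
  have hlogN : Real.log X / 2 ≤ Real.log N := by
    have h1 : (M : ℝ) ^ 2 ≤ X := by
      have : M ^ 2 ≤ X := by omega
      exact_mod_cast this
    have h2 : Real.log M ≤ Real.log X / 2 := by
      have := Real.log_le_log (by positivity) h1
      rw [Real.log_pow] at this
      push_cast at this
      linarith
    have h3 : Real.log (X / M) ≤ Real.log N := Real.log_le_log (by positivity) hNge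
    rw [Real.log_div hXr.ne' hMpos.ne'] at h3
    linarith
  calc (S.card : ℝ) ≤ 10 * ((M : ℝ) / M.totient) * (N / Real.log N) := hb
    _ ≤ 10 * ((M : ℝ) / M.totient) * ((2 * (X / M)) / (Real.log X / 2)) := by
        gcongr
    _ = 40 * ((X : ℝ) / (M.totient * Real.log X)) := by
        field_simp
        ring

/-- Sums of reciprocals of primes `≡ 1 mod q` are unbounded. -/
lemma recip_unbounded (q : ℕ) [NeZero q] (B : ℝ) : ∃ F : Finset ℕ,
    (∀ p ∈ F, p.Prime ∧ (p : ZMod q) = 1) ∧ B ≤ ∑ p ∈ F, (1 : ℝ) / p := by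
  obtain ⟨y0, hy0⟩ := prime_block q
  set A : ℝ := (q.totient : ℝ)⁻¹ with hA
  have hA0 : 0 < A := by
    rw [hA]
    have := Nat.totient_pos.mpr (Nat.pos_of_ne_zero (NeZero.ne q))
    positivity
  obtain ⟨J0, hJ0⟩ := exists_nat_ge y0
  have hdiv := Real.tendsto_sum_range_one_div_nat_succ_atTop
  obtain ⟨J, hJ⟩ := (hdiv.eventually (Filter.eventually_ge_atTop
    (B / (3 / 8 * A / 31) + ∑ i ∈ range J0, (1 : ℝ) / (i + 1)))).exists
  set f : ℕ → Finset ℕ := fun j => (blk (21 * (j : ℝ))).filter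
    (fun n : ℕ => n.Prime ∧ (n : ZMod q) = 1) with hf
  refine ⟨(Ico J0 J).biUnion f, ?_, ?_⟩
  · intro p hp
    simp only [hf, Finset.mem_biUnion, Finset.mem_filter] at hp
    obtain ⟨j, _, _, h⟩ := hp
    exact h
  · rw [Finset.sum_biUnion]
    · have hterm : ∀ j ∈ Ico J0 J, (3 / 8 * A / 31) * ((1 : ℝ) / (j + 1)) ≤
          ∑ p ∈ f j, (1 : ℝ) / p := by
        intro j hj
        rw [Finset.mem_Ico] at hj
        have hjr : (J0 : ℝ) ≤ j := by exact_mod_cast hj.1
        have hj0 : (0 : ℝ) ≤ j := by positivity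
        have h1 := hy0 (21 * (j : ℝ)) (by linarith)
        have h2 : ∑ n ∈ f j, Real.log n / n ≤
            ∑ n ∈ f j, (31 * ((j : ℝ) + 1)) * ((1 : ℝ) / n) := by
          apply Finset.sum_le_sum
          intro n hn
          simp only [hf, Finset.mem_filter, mem_blk] at hn
          have h3 := (abs_le.mp hn.1.2).2
          have hn0 : (0 : ℝ) < n := by exact_mod_cast hn.1.1
          rw [mul_one_div]
          gcongr
          linarith
        rw [← Finset.mul_sum] at h2
        have h3 : 96 * A ≤ 256 * ((31 * ((j : ℝ) + 1)) * ∑ n ∈ f j, (1 : ℝ) / n) := by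
          refine h1.trans ?_
          gcongr
        have hpos : (0 : ℝ) < j + 1 := by positivity
        rw [mul_one_div, div_div, div_le_iff₀ (by positivity)]
        linarith
      have h2 := Finset.sum_le_sum hterm
      refine le_trans ?_ h2
      rw [← Finset.mul_sum]
      have h3 : ∑ i ∈ Ico J0 J, (1 : ℝ) / (i + 1) =
          ∑ i ∈ range J, (1 : ℝ) / (i + 1) - ∑ i ∈ range (min J0 J), (1 : ℝ) / (i + 1) := by
        rcases le_total J0 J with h | h
        · rw [min_eq_left h, Finset.sum_Ico_eq_sub _ h]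
        · rw [min_eq_right h, Finset.Ico_eq_empty_of_le h]
          simp
      have h4 : ∑ i ∈ range (min J0 J), (1 : ℝ) / (i + 1) ≤
          ∑ i ∈ range J0, (1 : ℝ) / (i + 1) := by
        apply Finset.sum_le_sum_of_subset_of_nonneg
        · intro i hi
          rw [Finset.mem_range] at hi ⊢
          omega
        · intro i _ _
          positivity
      rw [h3]
      have h5 : B / (3 / 8 * A / 31) ≤ ∑ i ∈ range J, (1 : ℝ) / (i + 1) -
          ∑ i ∈ range (min J0 J), (1 : ℝ) / (i + 1) := by linarith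
      have hc : 0 < 3 / 8 * A / 31 := by positivity
      rw [div_le_iff₀ hc] at h5
      linarith
    · intro i _ j _ hij
      rw [Function.onFun, Finset.disjoint_left]
      intro n hn hn'
      simp only [hf, Finset.mem_filter, mem_blk] at hn hn'
      have h1 := abs_le.mp hn.1.2
      have h2 := abs_le.mp hn'.1.2
      rcases lt_or_gt_of_ne hij with h | h
      · have : (i : ℝ) + 1 ≤ j := by exact_mod_cast h
        linarith [h1.1, h1.2, h2.1, h2.2]
      · have : (j : ℝ) + 1 ≤ i := by exact_mod_cast h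
        linarith [h1.1, h1.2, h2.1, h2.2]

end

end Pool.Agent.Lib.MP_f3a92d_nt
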