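import Mathlib
import Pool.Agent.Lib.MP_f3a92d_nt.Count

set_option autoImplicit false

namespace Pool.Agent.Lib.MP_f3a92d_nt

open Finset

noncomputable section

/-- The residue of the primes that are not chosen greedily. -/
def base (r : ℕ) (G1 : Finset ℕ) (p : ℕ) : ℕ := if p = r ∨ p ∈ G1 then 1 else 0

/-- The primes that are chosen greedily. -/
def isG (r : ℕ) (G1 : Finset ℕ) (p : ℕ) : Prop := p.Prime ∧ p % r = 1 ∧ p ∉ G1

/-- `n` is covered by the class `b mod p`. -/
def cov (k b p n : ℕ) : Prop := n % p = b ∧ b + k * p ≤ n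

lemma base_lt (r : ℕ) (G1 : Finset ℕ) (p : ℕ) (hp : p.Prime) : base r G1 p < p := by
  unfold base
  have := hp.two_le
  split_ifs <;> omega

lemma mod_one_of_primes (r : ℕ) : ∀ n : ℕ, n ≠ 0 →
    (∀ q, q.Prime → q ∣ n → q ≡ 1 [MOD r]) → n ≡ 1 [MOD r] := by
  intro n
  induction n using Nat.strong_induction_on with
  | _ n ih =>
    intro hn h
    by_cases h1 : n = 1
    · rw [h1]
    · have hp := Nat.minFac_prime h1
      obtain ⟨m, hm⟩ := Nat.minFac_dvd n
      have hm0 : m ≠ 0 := by
        rintro rfl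
        simp at hm
        exact hn hm
      have hlt : m < n := by
        have h2 := hp.two_le
        have h3 : 0 < m := Nat.pos_of_ne_zero hm0
        calc m < 2 * m := by omega
          _ ≤ n.minFac * m := Nat.mul_le_mul_right m h2
          _ = n := hm.symm
      have h2 := ih m hlt hm0 (fun q hq hqm => h q hq (hm ▸ dvd_mul_of_dvd_right hqm _))
      have h3 := h n.minFac hp (Nat.minFac_dvd n)
      have h4 := Nat.ModEq.mul h3 h2
      rw [← hm] at h4
      simpa using h4

lemma classify (k r : ℕ) (hr : r.Prime) (hk : k < r) (G1 : Finset ℕ)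
    (hG1 : ∀ p ∈ G1, p.Prime ∧ p % r = 1) (n : ℕ) (hn1 : k ^ 2 + 1 ≤ n) (hn2 : 1 + k * r ≤ n)
    (hn : ∀ q, q.Prime → ¬ isG r G1 q → ¬ cov k (base r G1 q) q n) :
    n.Prime ∨ n % r ^ 2 = 0 ∨ n % r ^ 2 = r := by
  have hr2 := hr.two_le
  by_cases hp : n.Prime
  · exact Or.inl hp
  right
  -- a prime divisor `q ≢ 1`, `q ≠ r` forces `n < k q`
  have hbig : ∀ q, q.Prime → q ∣ n → q ≠ r → q % r ≠ 1 → n < k * q := by
    intro q hq hqn hqr hq1
    have hqG1 : q ∉ G1 := fun h => hq1 (hG1 q h).2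
    have hng : ¬ isG r G1 q := fun h => hq1 h.2.1
    have h := hn q hq hng
    unfold cov base at h
    rw [if_neg (by tauto)] at h
    by_contra! hle
    exact h ⟨Nat.mod_eq_zero_of_dvd hqn, by omega⟩
  have key : ∀ q, q.Prime → q ∣ n → q ≠ r → q % r = 1 := by
    intro q hq hqn hqr
    by_contra hne
    have h1 := hbig q hq hqn hqr hne
    obtain ⟨m, rfl⟩ := hqn
    have hq0 := hq.pos
    have hmk : m < k := by
      have : q * m < q * k := by rw [mul_comm q k]; exact h1
      exact Nat.lt_of_mul_lt_mul_left this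
    have hm1 : m ≠ 1 := by
      rintro rfl
      rw [mul_one] at hp
      exact hp hq
    have hm0 : m ≠ 0 := by
      rintro rfl
      simp at hn1
    have hs := Nat.minFac_prime hm1
    have hsm : m.minFac ≤ m := Nat.minFac_le (Nat.pos_of_ne_zero hm0)
    have hsr : m.minFac < r := by omega
    have h2 := hbig m.minFac hs (dvd_mul_of_dvd_right (Nat.minFac_dvd m) q) (by omega) (by
      rw [Nat.mod_eq_of_lt hsr]
      have := hs.two_le
      omega)
    have h3 : k * m.minFac ≤ k * k := Nat.mul_le_mul_left k (by omega)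
    have h4 : k * k = k ^ 2 := by ring
    omega
  by_cases hrn : r ∣ n
  · obtain ⟨w, rfl⟩ := hrn
    by_cases hrw : r ∣ w
    · left
      obtain ⟨u, rfl⟩ := hrw
      apply Nat.mod_eq_zero_of_dvd
      exact ⟨u, by ring⟩
    · right
      have hw0 : w ≠ 0 := by
        rintro rfl
        simp at hrw
      have hw := mod_one_of_primes r w hw0 (by
        intro q hq hqw
        have hqr : q ≠ r := by
          rintro rfl
          exact hrw hqw
        have := key q hq (dvd_mul_of_dvd_right hqw r) hqr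
        rw [Nat.ModEq, this, Nat.mod_eq_of_lt (by omega)])
      rw [Nat.ModEq, Nat.mod_eq_of_lt (show 1 < r by omega)] at hw
      have h1 := Nat.div_add_mod w r
      rw [hw] at h1
      have h2 : r * w = r + r ^ 2 * (w / r) := by
        calc r * w = r * (r * (w / r) + 1) := by rw [h1]
          _ = _ := by ring
      rw [h2, Nat.add_mul_mod_self_left]
      apply Nat.mod_eq_of_lt
      nlinarith
  · exfalso
    have hn0 : n ≠ 0 := by omega
    have h1 := mod_one_of_primes r n hn0 (by
      intro q hq hqn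
      have hqr : q ≠ r := by
        rintro rfl
        exact hrn hqn
      have := key q hq hqn hqr
      rw [Nat.ModEq, this, Nat.mod_eq_of_lt (by omega)])
    rw [Nat.ModEq, Nat.mod_eq_of_lt (show 1 < r by omega)] at h1
    have hng : ¬ isG r G1 r := by
      intro h
      have := h.2.1
      simp at this
    apply hn r hr hng
    unfold cov base
    rw [if_pos (Or.inl rfl)]
    exact ⟨h1, hn2⟩

/-- Allowed residues modulo `∏ G1`. -/
def RM (G1 : Finset ℕ) : Finset ℕ :=
  (range (∏ p ∈ G1, p)).filter (fun b => ∀ q ∈ G1, b % q ≠ 0 ∧ b % q ≠ 1)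

lemma card_RM (G1 : Finset ℕ) (hG1 : ∀ p ∈ G1, p.Prime) :
    (RM G1).card ≤ ∏ p ∈ G1, (p - 2) := by
  classical
  have hcard : (Finset.pi G1 (fun q => (range q).filter (fun x => x ≠ 0 ∧ x ≠ 1))).card =
      ∏ p ∈ G1, (p - 2) := by
    rw [Finset.card_pi]
    apply Finset.prod_congr rfl
    intro p hp
    have hp2 := (hG1 p hp).two_le
    have : (range p).filter (fun x => x ≠ 0 ∧ x ≠ 1) = Finset.Ico 2 p := by
      ext x
      simp only [Finset.mem_filter, Finset.mem_range, Finset.mem_Ico]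
      omega
    rw [this, Nat.card_Ico]
  rw [← hcard]
  apply Finset.card_le_card_of_injOn (fun b q _ => b % q)
  · intro b hb
    simp only [RM, Finset.coe_filter, Set.mem_ofPred_eq] at hb
    rw [Finset.mem_coe, Finset.mem_pi]
    intro q hq
    rw [Finset.mem_filter, Finset.mem_range]
    exact ⟨Nat.mod_lt _ (hG1 q hq).pos, hb.2 q hq⟩
  · intro b hb b' hb' h
    simp only [RM, Finset.coe_filter, Set.mem_ofPred_eq, Finset.mem_range] at hb hb'
    have h1 : ∀ q ∈ G1, (b : ℤ) ≡ b' [ZMOD q] := by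
      intro q hq
      have := congrFun (congrFun h q) hq
      exact (Int.natCast_modEq_iff).mpr this
    have h2 : ((∏ p ∈ G1, p : ℕ) : ℤ) ∣ (b' : ℤ) - b := by
      push_cast
      apply Finset.prod_dvd_of_coprime
      · intro p hp q hq hpq
        exact Nat.isCoprime_iff_coprime.mpr
          ((Nat.coprime_primes (hG1 p hp) (hG1 q hq)).mpr hpq)
      · intro p hp
        exact (h1 p hp).dvd
    have h3 : (b : ℤ) ≡ b' [ZMOD ((∏ p ∈ G1, p : ℕ) : ℤ)] := Int.modEq_iff_dvd.mpr h2
    have h4 : b ≡ b' [MOD (∏ p ∈ G1, p)] := (Int.natCast_modEq_iff).mp h3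
    exact Nat.ModEq.eq_of_lt_of_lt h4 hb.1 hb'.1

lemma totient_prod (G1 : Finset ℕ) (hG1 : ∀ p ∈ G1, p.Prime) :
    (∏ p ∈ G1, p).totient = ∏ p ∈ G1, (p - 1) := by
  classical
  induction G1 using Finset.induction_on with
  | empty => simp
  | insert a s ha ih =>
    rw [Finset.prod_insert ha, Finset.prod_insert ha]
    have hs : ∀ p ∈ s, p.Prime := fun p hp => hG1 p (Finset.mem_insert_of_mem hp)
    have hap : a.Prime := hG1 a (Finset.mem_insert_self a s)
    rw [Nat.totient_mul, ih hs, Nat.totient_prime hap]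
    apply Nat.Coprime.prod_right
    intro p hp
    rw [Nat.coprime_primes hap (hs p hp)]
    rintro rfl
    exact ha hp

lemma ratio_bound (G1 : Finset ℕ) (hG1 : ∀ p ∈ G1, p.Prime) :
    ((RM G1).card : ℝ) / ((∏ p ∈ G1, p).totient : ℝ) ≤ Real.exp (-∑ p ∈ G1, (1 : ℝ) / p) := by
  rw [totient_prod G1 hG1]
  have h1 : ((RM G1).card : ℝ) ≤ ∏ p ∈ G1, ((p - 2 : ℕ) : ℝ) := by
    have := card_RM G1 hG1
    rw [← Nat.cast_prod]
    exact_mod_cast this
  have h2 : ((∏ p ∈ G1, (p - 1) : ℕ) : ℝ) = ∏ p ∈ G1, ((p - 1 : ℕ) : ℝ) := by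
    rw [Nat.cast_prod]
  rw [h2]
  have h3 : ∀ p ∈ G1, (0 : ℝ) < ((p - 1 : ℕ) : ℝ) := by
    intro p hp
    have := (hG1 p hp).two_le
    have h : 0 < p - 1 := by omega
    exact_mod_cast h
  calc ((RM G1).card : ℝ) / ∏ p ∈ G1, ((p - 1 : ℕ) : ℝ)
      ≤ (∏ p ∈ G1, ((p - 2 : ℕ) : ℝ)) / ∏ p ∈ G1, ((p - 1 : ℕ) : ℝ) := by
        apply div_le_div_of_nonneg_right h1
        exact Finset.prod_nonneg (fun p hp => (h3 p hp).le)
    _ = ∏ p ∈ G1, (((p - 2 : ℕ) : ℝ) / ((p - 1 : ℕ) : ℝ)) := by
        rw [Finset.prod_div_distrib]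
    _ ≤ ∏ p ∈ G1, Real.exp (-(1 / (p : ℝ))) := by
        apply Finset.prod_le_prod
        · intro p hp
          exact div_nonneg (by positivity) (h3 p hp).le
        · intro p hp
          have hp2 := (hG1 p hp).two_le
          have hp3 := h3 p hp
          have e1 : ((p - 2 : ℕ) : ℝ) = (p : ℝ) - 2 := by
            rw [Nat.cast_sub hp2]
            norm_num
          have e2 : ((p - 1 : ℕ) : ℝ) = (p : ℝ) - 1 := by
            rw [Nat.cast_sub (by omega)]
            norm_num
          rw [e2] at hp3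
          rw [e1, e2]
          have hpr : (2 : ℝ) ≤ p := by exact_mod_cast hp2
          have h4 : ((p : ℝ) - 2) / (p - 1) ≤ -(1 / (p : ℝ)) + 1 := by
            rw [div_le_iff₀ hp3]
            have : (0 : ℝ) < p := by linarith
            field_simp
            nlinarith
          exact h4.trans (Real.add_one_le_exp _)
    _ = Real.exp (-∑ p ∈ G1, (1 : ℝ) / p) := by
        rw [← Real.exp_sum, Finset.sum_neg_distrib]

end

end Pool.Agent.Lib.MP_f3a92d_nt
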