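import Mathlib
import Pool.Agent.Lib.MP_f3a92d_nt.Classify

set_option autoImplicit false

namespace Pool.Agent.Lib.MP_f3a92d_nt

open Finset

noncomputable section

theorem count_D (k r : ℕ) (hk1 : 1 ≤ k) (hr : r.Prime) (hk : k < r) (G1 : Finset ℕ)
    (hG1 : ∀ p ∈ G1, p.Prime ∧ p % r = 1) : ∃ X0 : ℕ, ∀ X ≥ X0, ∀ a : ℕ → ℕ,
    (∀ q, q.Prime → a q < q) → ∀ S : Finset ℕ,
    (∀ n ∈ S, n < X ∧ k ^ 2 + 1 ≤ n ∧ 1 + k * r ≤ n ∧
      (∀ q, q.Prime → ¬ isG r G1 q → ¬ cov k (base r G1 q) q n) ∧
      (∀ q, isG r G1 q → q ≤ Nat.sqrt X → ¬ cov k (a q) q n)) →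
    (S.card : ℝ) ≤ (k + 1) * Nat.sqrt X +
      40 * Real.exp (-∑ p ∈ G1, (1 : ℝ) / p) * (X / Real.log X) +
      80 * (1 / ((r : ℝ) * (r - 1))) * (X / Real.log X) := by
  classical
  set M := ∏ p ∈ G1, p with hM
  have hM0 : 0 < M := Finset.prod_pos (fun p hp => (hG1 p hp).1.pos)
  obtain ⟨X1, hX1⟩ := sieve_prog M hM0
  obtain ⟨X2, hX2⟩ := sieve_prog (r ^ 2) (pow_pos hr.pos 2)
  set mx := ∑ p ∈ G1, (1 + k * p) with hmx
  refine ⟨X1 + X2 + (mx + 2) ^ 2, ?_⟩
  intro X hX a ha S hS
  set z := Nat.sqrt X with hz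
  have hzmx : mx + 2 ≤ z := by
    rw [hz, Nat.le_sqrt]
    have : (mx + 2) * (mx + 2) = (mx + 2) ^ 2 := by ring
    rw [this]
    omega
  have hXpos : 1 < X := by
    have : 4 ≤ (mx + 2) ^ 2 := by nlinarith
    omega
  have hXr : (0 : ℝ) < X := by
    have : 0 < X := by omega
    exact_mod_cast this
  have hlogX : 0 < Real.log X := Real.log_pos (by exact_mod_cast hXpos)
  set a' : ℕ → ℕ := fun q => if isG r G1 q then a q else base r G1 q with ha'
  have ha'lt : ∀ q, q.Prime → a' q < q := by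
    intro q hq
    simp only [ha']
    split_ifs
    · exact ha q hq
    · exact base_lt r G1 q hq
  -- avoided classes for large n
  have havoid : ∀ n ∈ S, (k + 1) * z ≤ n → ∀ p, p.Prime → p ≤ z → ¬ n ≡ a' p [MOD p] := by
    intro n hn hnz p hp hpz hmod
    obtain ⟨h1, h2, h3, h4, h5⟩ := hS n hn
    have hlt := ha'lt p hp
    have hmod' : n % p = a' p := by
      rw [Nat.ModEq] at hmod
      rw [hmod, Nat.mod_eq_of_lt hlt]
    have hcov : cov k (a' p) p n := by
      refine ⟨hmod', ?_⟩
      have : a' p + k * p ≤ (k + 1) * p := by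
        have : (k + 1) * p = p + k * p := by ring
        omega
      have h6 : (k + 1) * p ≤ (k + 1) * z := Nat.mul_le_mul_left _ hpz
      omega
    by_cases hg : isG r G1 p
    · have : a' p = a p := by simp [ha', hg]
      rw [this] at hcov
      exact h5 p hg hpz hcov
    · have : a' p = base r G1 p := by simp [ha', hg]
      rw [this] at hcov
      exact h4 p hp hg hcov
  set S0 := S.filter (fun n => n < (k + 1) * z) with hS0
  set SA := S.filter (fun n => (k + 1) * z ≤ n ∧ n.Prime) with hSA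
  set SB := S.filter (fun n => (k + 1) * z ≤ n ∧ n % r ^ 2 = 0) with hSB
  set SC := S.filter (fun n => (k + 1) * z ≤ n ∧ n % r ^ 2 = r) with hSC
  have hcover : S ⊆ S0 ∪ SA ∪ SB ∪ SC := by
    intro n hn
    obtain ⟨h1, h2, h3, h4, h5⟩ := hS n hn
    have hcl := classify k r hr hk G1 hG1 n h2 h3 h4
    simp only [Finset.mem_union, hS0, hSA, hSB, hSC, Finset.mem_filter]
    by_cases hnz : n < (k + 1) * z
    · left; left; left
      exact ⟨hn, hnz⟩
    · push Not at hnz
      rcases hcl with h | h | h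
      · left; left; right
        exact ⟨hn, hnz, h⟩
      · left; right
        exact ⟨hn, hnz, h⟩
      · right
        exact ⟨hn, hnz, h⟩
  have hcard : S.card ≤ S0.card + SA.card + SB.card + SC.card := by
    calc S.card ≤ (S0 ∪ SA ∪ SB ∪ SC).card := Finset.card_le_card hcover
      _ ≤ (S0 ∪ SA ∪ SB).card + SC.card := Finset.card_union_le _ _
      _ ≤ (S0 ∪ SA).card + SB.card + SC.card := by
          have := Finset.card_union_le (S0 ∪ SA) SB
          omega
      _ ≤ _ := by
          have := Finset.card_union_le S0 SA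
          omega
  have b0 : (S0.card : ℝ) ≤ (k + 1) * z := by
    have : S0.card ≤ ((range ((k + 1) * z))).card := by
      apply Finset.card_le_card
      intro n hn
      simp only [hS0, Finset.mem_filter] at hn
      exact Finset.mem_range.mpr hn.2
    rw [Finset.card_range] at this
    exact_mod_cast this
  have htotr : (((r ^ 2).totient : ℕ) : ℝ) = (r : ℝ) * (r - 1) := by
    rw [Nat.totient_prime_pow hr (by norm_num)]
    push_cast [Nat.cast_sub hr.one_le]
    ring
  have bB : (SB.card : ℝ) ≤ 40 * ((X : ℝ) / (((r ^ 2).totient : ℕ) * Real.log X)) := by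
    apply hX2 X (by omega) 0 a' SB
    intro n hn
    simp only [hSB, Finset.mem_filter] at hn
    refine ⟨(hS n hn.1).1, hn.2.2, fun p hp hpz _ => ?_⟩
    exact havoid n hn.1 hn.2.1 p hp hpz
  have bC : (SC.card : ℝ) ≤ 40 * ((X : ℝ) / (((r ^ 2).totient : ℕ) * Real.log X)) := by
    apply hX2 X (by omega) r a' SC
    intro n hn
    simp only [hSC, Finset.mem_filter] at hn
    refine ⟨(hS n hn.1).1, hn.2.2, fun p hp hpz _ => ?_⟩
    exact havoid n hn.1 hn.2.1 p hp hpz
  have bA : (SA.card : ℝ) ≤ 40 * Real.exp (-∑ p ∈ G1, (1 : ℝ) / p) * (X / Real.log X) := by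
    -- all n in SA reduce to RM
    have hmaps : ∀ n ∈ SA, n % M ∈ RM G1 := by
      intro n hn
      simp only [hSA, Finset.mem_filter] at hn
      obtain ⟨hnS, hnz, hnp⟩ := hn
      simp only [RM, Finset.mem_filter, Finset.mem_range]
      refine ⟨Nat.mod_lt _ hM0, fun q hq => ?_⟩
      have hqM : q ∣ M := Finset.dvd_prod_of_mem _ hq
      rw [Nat.mod_mod_of_dvd n hqM]
      have hqp := (hG1 q hq).1
      have hqle : 1 + k * q ≤ mx := by
        rw [hmx]
        exact Finset.single_le_sum (f := fun p => 1 + k * p) (fun _ _ => Nat.zero_le _) hq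
      have hzn : z ≤ n := by
        calc z ≤ (k + 1) * z := Nat.le_mul_of_pos_left z (by omega)
          _ ≤ n := hnz
      have hqk : q ≤ k * q := Nat.le_mul_of_pos_left q hk1
      constructor
      · intro h
        have hqn : q ∣ n := Nat.dvd_of_mod_eq_zero h
        have := (Nat.prime_dvd_prime_iff_eq hqp hnp).mp hqn
        omega
      · intro h
        obtain ⟨h1, h2, h3, h4, h5⟩ := hS n hnS
        have hng : ¬ isG r G1 q := fun hh => hh.2.2 hq
        apply h4 q hqp hng
        unfold cov base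
        rw [if_pos (Or.inr hq)]
        exact ⟨h, by omega⟩
    have hfib : (SA.card : ℝ) = ∑ b ∈ RM G1, ((SA.filter (fun n => n % M = b)).card : ℝ) := by
      rw [← Nat.cast_sum]
      congr 1
      exact Finset.card_eq_sum_card_fiberwise hmaps
    have hone : ∀ b ∈ RM G1, ((SA.filter (fun n => n % M = b)).card : ℝ) ≤
        40 * ((X : ℝ) / (M.totient * Real.log X)) := by
      intro b _
      apply hX1 X (by omega) b (fun _ => 0)
      intro n hn
      simp only [hSA, Finset.mem_filter] at hn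
      obtain ⟨⟨hnS, hnz, hnp⟩, hnM⟩ := hn
      refine ⟨(hS n hnS).1, hnM, fun p hp hpz _ h => ?_⟩
      have hpn : p ∣ n := (Nat.modEq_zero_iff_dvd).mp h
      have hpe := (Nat.prime_dvd_prime_iff_eq hp hnp).mp hpn
      have hzn : 2 * z ≤ n := by
        calc 2 * z ≤ (k + 1) * z := Nat.mul_le_mul_right z (by omega)
          _ ≤ n := hnz
      omega
    rw [hfib]
    have h2 := Finset.sum_le_card_nsmul (RM G1) _ _ hone
    refine h2.trans ?_
    rw [nsmul_eq_mul]
    have h3 := ratio_bound G1 (fun p hp => (hG1 p hp).1)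
    rw [← hM] at h3
    have htot : (0 : ℝ) < M.totient := by
      have := Nat.totient_pos.mpr hM0
      exact_mod_cast this
    calc ((RM G1).card : ℝ) * (40 * ((X : ℝ) / (M.totient * Real.log X)))
        = 40 * (((RM G1).card : ℝ) / M.totient) * (X / Real.log X) := by
          field_simp
      _ ≤ _ := by gcongr
  have hfin : (S.card : ℝ) ≤ S0.card + SA.card + SB.card + SC.card := by exact_mod_cast hcard
  have hrr : (1 : ℝ) < r := by exact_mod_cast hr.one_lt
  have e1 : 40 * ((X : ℝ) / (((r ^ 2).totient : ℕ) * Real.log X)) =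
      40 * (1 / ((r : ℝ) * (r - 1))) * (X / Real.log X) := by
    rw [htotr]
    have : (r : ℝ) - 1 ≠ 0 := by linarith
    field_simp
  rw [e1] at bB bC
  linarith

end

end Pool.Agent.Lib.MP_f3a92d_nt
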