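import Mathlib
import Pool.Agent.Lib.MP_f3a92d_nt.CountD

set_option autoImplicit false

namespace Pool.Agent.Lib.MP_f3a92d_nt

open Finset

noncomputable section

open Classical in
/-- The greedy residues. -/
def ga (k r N0 : ℕ) (G1 : Finset ℕ) (p : ℕ) : ℕ :=
  if isG r G1 p then
    (sInf {n : ℕ | N0 ≤ n ∧ (∀ q, q.Prime → ¬ isG r G1 q → ¬ cov k (base r G1 q) q n) ∧
      ∀ q, ∀ _ : q < p, isG r G1 q → ¬ cov k (ga k r N0 G1 q) q n}) % p
  else base r G1 p
termination_by p

/-- The set of numbers uncovered before step `p`. -/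
def UU (k r N0 : ℕ) (G1 : Finset ℕ) (p : ℕ) : Set ℕ :=
  {n : ℕ | N0 ≤ n ∧ (∀ q, q.Prime → ¬ isG r G1 q → ¬ cov k (base r G1 q) q n) ∧
      ∀ q, ∀ _ : q < p, isG r G1 q → ¬ cov k (ga k r N0 G1 q) q n}

lemma ga_eq (k r N0 : ℕ) (G1 : Finset ℕ) (p : ℕ) (hp : isG r G1 p) :
    ga k r N0 G1 p = sInf (UU k r N0 G1 p) % p := by
  rw [ga, if_pos hp]
  rfl

lemma ga_eq' (k r N0 : ℕ) (G1 : Finset ℕ) (p : ℕ) (hp : ¬ isG r G1 p) :
    ga k r N0 G1 p = base r G1 p := by
  rw [ga, if_neg hp]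

lemma ga_lt (k r N0 : ℕ) (G1 : Finset ℕ) (p : ℕ) (hp : p.Prime) : ga k r N0 G1 p < p := by
  by_cases h : isG r G1 p
  · rw [ga_eq k r N0 G1 p h]
    exact Nat.mod_lt _ hp.pos
  · rw [ga_eq' k r N0 G1 p h]
    exact base_lt r G1 p hp

lemma UU_anti (k r N0 : ℕ) (G1 : Finset ℕ) {p p' : ℕ} (h : p ≤ p') :
    UU k r N0 G1 p' ⊆ UU k r N0 G1 p := by
  intro n hn
  exact ⟨hn.1, hn.2.1, fun q hq hg => hn.2.2 q (lt_of_lt_of_le hq h) hg⟩

/-- An elementary growth estimate. -/
lemma growth (c C1 C2 : ℝ) (hc : 0 < c) (hC1 : 0 ≤ C1) (hC2 : 0 ≤ C2) :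
    ∃ x0 : ℝ, ∀ x : ℝ, x0 ≤ x → C1 * Real.sqrt x + C2 < c * (x / Real.log x) := by
  set T : ℝ := 1 + 4 * (C1 + C2 + 1) / c with hT
  have hT1 : 1 < T := by
    rw [hT]
    have : 0 < 4 * (C1 + C2 + 1) / c := by positivity
    linarith
  refine ⟨T ^ 4, fun x hx => ?_⟩
  have hx1 : 1 < x := lt_of_lt_of_le (one_lt_pow₀ hT1 (by norm_num)) hx
  have hx0 : 0 < x := by linarith
  set s : ℝ := Real.sqrt (Real.sqrt x) with hs
  have hs0 : 0 < s := Real.sqrt_pos.mpr (Real.sqrt_pos.mpr hx0)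
  have hs2 : s ^ 2 = Real.sqrt x := Real.sq_sqrt (Real.sqrt_nonneg x)
  have hs4 : s ^ 4 = x := by
    calc s ^ 4 = (s ^ 2) ^ 2 := by ring
      _ = x := by rw [hs2, Real.sq_sqrt hx0.le]
  have hsT : T ≤ s := by
    by_contra! h
    have : s ^ 4 < T ^ 4 := by gcongr
    rw [hs4] at this
    linarith
  have hlog : Real.log x ≤ 4 * s := by
    rw [← hs4, Real.log_pow]
    have := Real.log_le_sub_one_of_pos hs0
    push_cast
    linarith
  have hlog0 : 0 < Real.log x := Real.log_pos hx1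
  have h1 : s ^ 3 / 4 ≤ x / Real.log x := by
    calc s ^ 3 / 4 = x / (4 * s) := by
          rw [← hs4]
          field_simp
      _ ≤ x / Real.log x := by gcongr
  have h2 : 4 * (C1 + C2 + 1) / c ≤ s := by
    rw [hT] at hsT
    linarith
  have h3 : 4 * (C1 + C2 + 1) ≤ s * c := by
    rwa [div_le_iff₀ hc] at h2
  have hs1 : 1 ≤ s := by linarith
  have hs21 : 1 ≤ s ^ 2 := one_le_pow₀ hs1
  calc C1 * Real.sqrt x + C2 = C1 * s ^ 2 + C2 := by rw [hs2]
    _ ≤ (C1 + C2) * s ^ 2 := by nlinarith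
    _ < (C1 + C2 + 1) * s ^ 2 := by nlinarith
    _ ≤ (s * c / 4) * s ^ 2 := by
        gcongr
        linarith
    _ = c * (s ^ 3 / 4) := by ring
    _ ≤ c * (x / Real.log x) := by gcongr

theorem main (k : ℕ) (hk : 1 ≤ k) :
    ∃ a : ℕ → ℕ, (∀ p : ℕ, p.Prime → a p < p) ∧
      ∃ N : ℕ, ∀ n : ℕ, N ≤ n →
        ∃ p : ℕ, p.Prime ∧ ∃ t : ℕ, k ≤ t ∧ n = a p + t * p := by
  classical
  set c3 : ℝ := 3 / 8 * Real.exp (-20) with hc3
  have hc3pos : 0 < c3 := by positivity
  have hkr : (1 : ℝ) ≤ k := by exact_mod_cast hk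
  -- choose r
  obtain ⟨r, hrge, hr⟩ := Nat.exists_infinite_primes (k + 1 + ⌈320 * k / c3⌉₊)
  have hkr' : k < r := by omega
  have hrbig : 320 * (k : ℝ) / c3 ≤ r := by
    have h1 : 320 * (k : ℝ) / c3 ≤ ⌈320 * k / c3⌉₊ := Nat.le_ceil _
    have h2 : ((⌈320 * k / c3⌉₊ : ℕ) : ℝ) ≤ r := by
      have : ⌈320 * k / c3⌉₊ ≤ r := by omega
      exact_mod_cast this
    linarith
  have hr1 : (1 : ℝ) < r := by exact_mod_cast hr.one_lt
  have hr2 := hr.two_le
  have : NeZero r := ⟨hr.ne_zero⟩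
  have hphi : ((r.totient : ℕ) : ℝ) = (r : ℝ) - 1 := by
    rw [Nat.totient_prime hr]
    push_cast [Nat.cast_sub hr.one_le]
    ring
  -- choose G1
  obtain ⟨G1, hG1', hG1sum⟩ := recip_unbounded r (Real.log (160 * k * (r - 1) / c3))
  have hmodone : ∀ n : ℕ, (n : ZMod r) = 1 ↔ n % r = 1 := by
    intro n
    have : ((1 : ℕ) : ZMod r) = 1 := by simp
    rw [← this, ZMod.natCast_eq_natCast_iff', Nat.mod_eq_of_lt (show 1 < r by omega)]
  have hG1 : ∀ p ∈ G1, p.Prime ∧ p % r = 1 := fun p hp =>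
    ⟨(hG1' p hp).1, (hmodone p).mp (hG1' p hp).2⟩
  set E : ℝ := Real.exp (-∑ p ∈ G1, (1 : ℝ) / p) with hE
  have hEle : E ≤ c3 / (160 * k * (r - 1)) := by
    have hpos : 0 < 160 * (k : ℝ) * (r - 1) / c3 := by
      have : 0 < (r : ℝ) - 1 := by linarith
      positivity
    calc E ≤ Real.exp (-Real.log (160 * k * (r - 1) / c3)) := by
          rw [hE]
          apply Real.exp_le_exp.mpr
          linarith
      _ = c3 / (160 * k * (r - 1)) := by
          rw [Real.exp_neg, Real.exp_log hpos, inv_div]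
  obtain ⟨X0, hX0⟩ := count_D k r hk hr hkr' G1 hG1
  obtain ⟨x0, hx0⟩ := primes_one_mod r
  obtain ⟨x1, hx1⟩ := growth (c3 / (2 * (r - 1))) ((k + 2) * Real.sqrt k) (G1.card + 2)
    (by
      have : 0 < (r : ℝ) - 1 := by linarith
      positivity) (by positivity) (by positivity)
  -- choose N0
  set N0 := k ^ 2 + 1 + (1 + k * r) + X0 + k * (⌈x0⌉₊ + ⌈x1⌉₊ + 3) with hN0
  refine ⟨ga k r N0 G1, fun p hp => ga_lt k r N0 G1 p hp, N0, ?_⟩
  by_contra hcon
  push Not at hcon
  obtain ⟨ns, hnsN, hns⟩ := hcon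
  have hnotcov : ∀ p, p.Prime → ¬ cov k (ga k r N0 G1 p) p ns := by
    intro p hp hcov
    have h1 := Nat.div_add_mod ns p
    rw [hcov.1] at h1
    apply hns p hp (ns / p)
    · by_contra! hlt
      have h3 : ns / p * p ≤ (k - 1) * p := Nat.mul_le_mul_right p (by omega)
      have h4 : (k - 1) * p + p = k * p := by
        have : k - 1 + 1 = k := by omega
        calc (k - 1) * p + p = (k - 1 + 1) * p := by ring
          _ = k * p := by rw [this]
      have h5 := hcov.2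
      have h6 : p * (ns / p) = ns / p * p := mul_comm _ _
      have h7 := hp.pos
      omega
    · have h6 : p * (ns / p) = ns / p * p := mul_comm _ _
      omega
  have hnsU : ∀ p, ns ∈ UU k r N0 G1 p := by
    intro p
    refine ⟨hnsN, fun q hq hg => ?_, fun q _ hg => hnotcov q hg.1⟩
    have := hnotcov q hq
    rwa [ga_eq' k r N0 G1 q hg] at this
  set m : ℕ → ℕ := fun p => sInf (UU k r N0 G1 p) with hm
  have hmU : ∀ p, m p ∈ UU k r N0 G1 p := fun p => Nat.sInf_mem ⟨ns, hnsU p⟩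
  have hmle : ∀ p, m p ≤ ns := fun p => Nat.sInf_le (hnsU p)
  have hmmono : ∀ p p', p ≤ p' → m p ≤ m p' := fun p p' h =>
    Nat.sInf_le (UU_anti k r N0 G1 h (hmU p'))
  -- first failure
  have hex : ∃ p, isG r G1 p ∧ m p < k * p := by
    obtain ⟨p, hp1, hp2, hp3⟩ := Nat.forall_exists_prime_gt_and_eq_mod (q := r)
      (a := (1 : ZMod r)) isUnit_one (ns + G1.sup id)
    refine ⟨p, ⟨hp2, (hmodone p).mp hp3, fun h => ?_⟩, ?_⟩
    · have := Finset.le_sup (f := id) h
      simp only [id] at this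
      omega
    · have h1 := hmle p
      have h2 : p ≤ k * p := Nat.le_mul_of_pos_left p hk
      omega
  set p := Nat.find hex with hpdef
  obtain ⟨hpG, hpm⟩ := Nat.find_spec hex
  rw [← hpdef] at hpG hpm
  have hmin : ∀ q, q < p → isG r G1 q → k * q ≤ m q := by
    intro q hq hg
    by_contra! h
    exact Nat.find_min hex hq ⟨hg, h⟩
  have hp0 : 0 < p := hpG.1.pos
  set X := k * p with hX
  have hXN0 : N0 < X := lt_of_le_of_lt (hmU p).1 hpm
  have hp3 : ⌈x0⌉₊ + ⌈x1⌉₊ + 3 < p := by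
    have h1 : k * (⌈x0⌉₊ + ⌈x1⌉₊ + 3) < k * p := by omega
    exact Nat.lt_of_mul_lt_mul_left h1
  -- covered after its step
  have hcovq : ∀ q, q < p → isG r G1 q → cov k (ga k r N0 G1 q) q (m q) := by
    intro q hq hg
    have hkq := hmin q hq hg
    rw [ga_eq k r N0 G1 q hg]
    refine ⟨rfl, ?_⟩
    have h1 := Nat.div_add_mod (m q) q
    have h2 : k ≤ m q / q := (Nat.le_div_iff_mul_le hg.1.pos).mpr hkq
    have h3 : k * q ≤ q * (m q / q) := by
      calc k * q ≤ (m q / q) * q := Nat.mul_le_mul_right q h2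
        _ = q * (m q / q) := mul_comm _ _
    show sInf (UU k r N0 G1 q) % q + k * q ≤ m q
    have h4 : sInf (UU k r N0 G1 q) = m q := rfl
    rw [h4]
    omega
  have hstrict : ∀ q q', q < q' → q < p → isG r G1 q → m q < m q' := by
    intro q q' hqq' hqp hg
    have h1 := hmmono q q' hqq'.le
    rcases Nat.lt_or_ge (m q) (m q') with h | h
    · exact h
    · exfalso
      have h2 : m q = m q' := le_antisymm h1 h
      have h3 := (hmU q').2.2 q hqq' hg
      rw [← h2] at h3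
      exact h3 (hcovq q hqp hg)
  set W := (range p).filter (fun q => isG r G1 q ∧ Nat.sqrt X < q) with hW
  set S := W.image m with hS
  have hcardS : S.card = W.card := by
    apply Finset.card_image_of_injOn
    intro q hq q' hq' hqq'
    simp only [hW, Finset.coe_filter, Finset.mem_range, Set.mem_ofPred_eq] at hq hq'
    rcases lt_trichotomy q q' with h | h | h
    · have := hstrict q q' h hq.1 hq.2.1
      omega
    · exact h
    · have := hstrict q' q h hq'.1 hq'.2.1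
      omega
  have hcount := hX0 X (by omega) (ga k r N0 G1) (fun q hq => ga_lt k r N0 G1 q hq) S (by
    intro n hn
    simp only [hS, Finset.mem_image] at hn
    obtain ⟨q, hq, rfl⟩ := hn
    simp only [hW, Finset.mem_filter, Finset.mem_range] at hq
    have hU := hmU q
    have hlt := hstrict q p hq.1 hq.1 hq.2.1
    have hN := hU.1
    refine ⟨by omega, by omega, by omega, hU.2.1, fun q' hg hle => ?_⟩
    exact hU.2.2 q' (by omega) hg)
  rw [hcardS] at hcount
  -- lower bound for the number of greedy primes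
  have hlow := hx0 (p : ℝ) (by
    have h1 : x0 ≤ ⌈x0⌉₊ := Nat.le_ceil _
    have h2 : ((⌈x0⌉₊ : ℕ) : ℝ) ≤ p := by
      have : ⌈x0⌉₊ ≤ p := by omega
      exact_mod_cast this
    linarith)
  rw [Nat.floor_natCast] at hlow
  have hWlow : ((Finset.Icc 1 p).filter (fun n : ℕ => n.Prime ∧ (n : ZMod r) = 1)).card ≤
      W.card + G1.card + (Nat.sqrt X + 1) + 1 := by
    have hsub : (Finset.Icc 1 p).filter (fun n : ℕ => n.Prime ∧ (n : ZMod r) = 1) ⊆
        W ∪ G1 ∪ range (Nat.sqrt X + 1) ∪ {p} := by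
      intro n hn
      simp only [Finset.mem_filter, Finset.mem_Icc] at hn
      simp only [Finset.mem_union, hW, Finset.mem_filter, Finset.mem_range, Finset.mem_singleton]
      by_cases h1 : n = p
      · right; exact h1
      · left
        by_cases h2 : n < Nat.sqrt X + 1
        · right; exact h2
        · left
          by_cases h3 : n ∈ G1
          · right; exact h3
          · left
            exact ⟨by omega, ⟨hn.2.1, (hmodone n).mp hn.2.2, h3⟩, by omega⟩
    calc _ ≤ (W ∪ G1 ∪ range (Nat.sqrt X + 1) ∪ {p}).card := Finset.card_le_card hsub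
      _ ≤ (W ∪ G1 ∪ range (Nat.sqrt X + 1)).card + 1 := by
          have := Finset.card_union_le (W ∪ G1 ∪ range (Nat.sqrt X + 1)) {p}
          rwa [Finset.card_singleton] at this
      _ ≤ (W ∪ G1).card + (Nat.sqrt X + 1) + 1 := by
          have := Finset.card_union_le (W ∪ G1) (range (Nat.sqrt X + 1))
          rw [Finset.card_range] at this
          omega
      _ ≤ _ := by
          have := Finset.card_union_le W G1
          omega
  have hWlow' : c3 * (r.totient : ℝ)⁻¹ * ((p : ℝ) / Real.log p) ≤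
      W.card + G1.card + (Nat.sqrt X + 1) + 1 := by
    refine hlow.trans ?_
    exact_mod_cast hWlow
  rw [hphi] at hWlow'
  -- numerics
  have hpr : (0 : ℝ) < p := by exact_mod_cast hp0
  have hp1 : (1 : ℝ) < p := by
    have : 1 < p := by omega
    exact_mod_cast this
  have hlogp : 0 < Real.log p := Real.log_pos hp1
  have hXr : (X : ℝ) = k * p := by
    rw [hX]
    push_cast
    ring
  have hXlog : (X : ℝ) / Real.log X ≤ k * ((p : ℝ) / Real.log p) := by
    rw [hXr, mul_div_assoc]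
    have : Real.log p ≤ Real.log (k * p) := by
      apply Real.log_le_log hpr
      nlinarith
    gcongr
  have hsqrt : ((Nat.sqrt X : ℕ) : ℝ) ≤ Real.sqrt k * Real.sqrt p := by
    rw [← Real.sqrt_mul (by positivity), ← hXr]
    exact Real.nat_sqrt_le_real_sqrt
  have hgr := hx1 (p : ℝ) (by
    have h1 : x1 ≤ ⌈x1⌉₊ := Nat.le_ceil _
    have h2 : ((⌈x1⌉₊ : ℕ) : ℝ) ≤ p := by
      have : ⌈x1⌉₊ ≤ p := by omega
      exact_mod_cast this
    linarith)
  have hr10 : 0 < (r : ℝ) - 1 := by linarith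
  set Y : ℝ := (p : ℝ) / Real.log p with hY
  have hY0 : 0 < Y := by positivity
  have t1 : 40 * E * ((X : ℝ) / Real.log X) ≤ c3 / (4 * (r - 1)) * Y := by
    have hE0 : 0 < E := Real.exp_pos _
    calc 40 * E * ((X : ℝ) / Real.log X)
        ≤ 40 * (c3 / (160 * k * (r - 1))) * (k * Y) := by gcongr
      _ = _ := by
          field_simp
          ring
  have t2 : 80 * (1 / ((r : ℝ) * (r - 1))) * ((X : ℝ) / Real.log X) ≤
      c3 / (4 * (r - 1)) * Y := by
    have hr0 : (0 : ℝ) < r := by linarith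
    have h1 : 320 * (k : ℝ) ≤ r * c3 := by
      rwa [div_le_iff₀ hc3pos] at hrbig
    calc 80 * (1 / ((r : ℝ) * (r - 1))) * ((X : ℝ) / Real.log X)
        ≤ 80 * (1 / ((r : ℝ) * (r - 1))) * (k * Y) := by gcongr
      _ = (320 * k) / (4 * (r * (r - 1))) * Y := by
          field_simp
          ring
      _ ≤ (r * c3) / (4 * (r * (r - 1))) * Y := by gcongr
      _ = _ := by
          field_simp
  have t3 : ((k : ℝ) + 1) * Nat.sqrt X + (Nat.sqrt X + 1) + 1 + G1.card ≤
      (k + 2) * Real.sqrt k * Real.sqrt p + (G1.card + 2) := by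
    have : ((k : ℝ) + 2) * Nat.sqrt X ≤ (k + 2) * (Real.sqrt k * Real.sqrt p) := by gcongr
    linarith
  have t4 : c3 * ((r : ℝ) - 1)⁻¹ * Y = c3 / (2 * (r - 1)) * Y + c3 / (4 * (r - 1)) * Y +
      c3 / (4 * (r - 1)) * Y := by
    field_simp
    ring
  linarith

end

end Pool.Agent.Lib.MP_f3a92d_nt
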